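import Mathlib
import Pool.Agent.Work.MP_8efaaa_nt.Q7.Gr1

/-!
# Q3/GrQ (S-M): finite abelian groups with `4`-rank `1` and `2`-rank `3`

`B` = the subgroup of squares; the kernel of `g ↦ g * g` has `8` elements (`h8`), so `#G = 8 #B`; `t ∈ B` (`ht'`), so `#B` is even, `#B = 2 j`, `#G = 16 j`. FIRST CLAIM.
The elements of `B` with `g * g = 1` are `1, t` (`honly`): `∏_B g = t` (`prod_two`). `x ∈ B`: `x ^ j = 1` if `x` is the square of an element `y` of `B` (`x ^ j = y ^ (2j) = 1`), `x ^ j = t` otherwise (`pow_half`). For `C ∈ G`: `C ^ (2 j) = (C C) ^ j`, `C C ∈ B`; `C C = (D D)(D D)` for some `D` iff `C (D D)⁻¹` has square `1` for some `D` iff `C ∈ B G2`, `G2 = {g * g = 1}`. `#(B G2) = #B #G2 / #(B ∩ G2) = 2 j * 8 / 2 = 8 j`, half of `#G`, and `B G2 ≤ A` (squares are in `A`, index `2`; `hA2`), `#A = 8 j`: `A = B G2`.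
-/

set_option autoImplicit false

namespace Pool.Agent.Work.MP_8efaaa_nt.Q3

open scoped Classical in
private theorem prodB {G : Type*} [CommGroup G] [Fintype G] {t : G} (ht : t ≠ 1)
    (h : ∀ g : G, g * g = 1 ↔ g = 1 ∨ g = t) : ∏ g : G, g = t := by
  rw [Q7.prod_two]
  have h1 : (Finset.univ.filter (fun g : G => g * g = 1)) = {1, t} := by
    ext g
    rw [Finset.mem_filter, Finset.mem_insert, Finset.mem_singleton, h]
    exact ⟨fun h2 => h2.2, fun h2 => ⟨Finset.mem_univ _, h2⟩⟩
  rw [h1, Finset.prod_pair ht.symm, one_mul]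

private theorem card_ker_range {G G' : Type*} [Group G] [Group G'] (f : G →* G') :
    Nat.card f.ker * Nat.card f.range = Nat.card G := by
  rw [← Subgroup.index_ker]
  exact Subgroup.card_mul_index _

theorem grpQ {G : Type*} [CommGroup G] [Finite G] {A : Subgroup G} (hA : A.index = 2) {t t' : G}
    (ht : t ≠ 1) (ht2 : t * t = 1) (ht' : t' * t' = t)
    (h8 : Nat.card {g : G // g * g = 1} = 8) (hA2 : ∀ g : G, g * g = 1 → g ∈ A)
    (honly : ∀ g : G, (g * g) * (g * g) = 1 → g * g = 1 ∨ g * g = t) :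
    ∃ j : ℕ, 1 ≤ j ∧ Nat.card G = 16 * j ∧ ∀ C : G, (C ∈ A → C ^ (2 * j) = 1) ∧
      (C ∉ A → C ^ (2 * j) = t) := by
  obtain ⟨φ, hφ⟩ : ∃ φ : G →* G, ∀ x, φ x = x * x :=
    ⟨powMonoidHom 2, fun x => pow_two x⟩
  have hK : Nat.card φ.ker = 8 := by
    rw [← h8]
    refine Nat.card_congr ⟨fun g => ⟨g.1, ?_⟩, fun g => ⟨g.1, ?_⟩, fun _ => rfl, fun _ => rfl⟩
    · have h1 := MonoidHom.mem_ker.1 g.2
      rw [hφ] at h1
      exact h1
    · rw [MonoidHom.mem_ker, hφ]
      exact g.2
  have hG := card_ker_range φ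
  rw [hK] at hG
  have htB : t ∈ φ.range := ⟨t', by rw [hφ, ht']⟩
  have hBt : ∀ g : φ.range, g * g = 1 ↔ g = 1 ∨ g = ⟨t, htB⟩ := by
    rintro ⟨g, x, rfl⟩
    constructor
    · intro h1
      have h2 : φ x * φ x = 1 := congrArg Subtype.val h1
      have h3 : φ x = x * x := hφ x
      rw [h3] at h2
      rcases honly x h2 with h4 | h4
      · left
        apply Subtype.ext
        show φ x = 1
        rw [h3, h4]
      · right
        apply Subtype.ext
        show φ x = t
        rw [h3, h4]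
    · rintro (h1 | h1)
      · rw [h1, one_mul]
      · rw [h1]
        exact Subtype.ext ht2
  have htne : (⟨t, htB⟩ : φ.range) ≠ 1 := fun h1 => ht (congrArg Subtype.val h1)
  have hBA : φ.range ≤ A := by
    rintro _ ⟨x, rfl⟩
    rw [hφ]
    exact Subgroup.mul_self_mem_of_index_two hA x
  -- the order of the group of squares is even
  obtain ⟨j, hj⟩ : ∃ j, Nat.card φ.range = 2 * j := by
    have h1 : orderOf (⟨t, htB⟩ : φ.range) = 2 := by
      refine orderOf_eq_prime ?_ htne
      rw [pow_two]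
      exact (hBt _).2 (Or.inr rfl)
    have h2 := orderOf_dvd_natCard (⟨t, htB⟩ : φ.range)
    rw [h1] at h2
    exact h2
  have hGj : Nat.card G = 16 * j := by
    rw [← hG, hj]
    ring
  have hj1 : 1 ≤ j := by
    rcases Nat.eq_zero_or_pos j with h | h
    · rw [h, mul_zero] at hGj
      exact absurd hGj Nat.card_pos.ne'
    · exact h
  -- the images of `A` and of the group of squares
  have hAc : Nat.card A = 8 * j := by
    have h1 := Subgroup.card_mul_index A
    rw [hA, hGj] at h1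
    omega
  have hkA : Nat.card (φ.comp A.subtype).ker = 8 := by
    rw [← h8]
    refine Nat.card_congr ⟨fun g => ⟨g.1.1, ?_⟩, fun g => ⟨⟨g.1, hA2 g.1 g.2⟩, ?_⟩, fun _ => rfl,
      fun _ => rfl⟩
    · have h1 : φ g.1.1 = 1 := MonoidHom.mem_ker.1 g.2
      rw [hφ] at h1
      exact h1
    · rw [MonoidHom.mem_ker]
      show φ g.1 = 1
      rw [hφ]
      exact g.2
  have hkB : Nat.card (φ.comp φ.range.subtype).ker = 2 := by
    have h1 : ((φ.comp φ.range.subtype).ker : Set φ.range) = {1, ⟨t, htB⟩} := by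
      ext g
      rw [SetLike.mem_coe, MonoidHom.mem_ker, Set.mem_insert_iff, Set.mem_singleton_iff, ← hBt]
      constructor
      · intro h2
        have h3 : φ g.1 = 1 := h2
        rw [hφ] at h3
        exact Subtype.ext h3
      · intro h2
        show φ g.1 = 1
        rw [hφ]
        exact congrArg Subtype.val h2
    have h2 : Nat.card (φ.comp φ.range.subtype).ker =
        ((φ.comp φ.range.subtype).ker : Set φ.range).ncard := rfl
    rw [h2, h1]
    exact Set.ncard_pair htne.symm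
  have hrA := card_ker_range (φ.comp A.subtype)
  have hrB := card_ker_range (φ.comp φ.range.subtype)
  rw [hkA, hAc] at hrA
  rw [hkB, hj] at hrB
  have hle : (φ.comp φ.range.subtype).range ≤ (φ.comp A.subtype).range := by
    rintro _ ⟨x, rfl⟩
    exact ⟨⟨x.1, hBA x.2⟩, rfl⟩
  have heq := Subgroup.eq_of_le_of_card_ge hle (by omega)
  have _hfin : Fintype φ.range := Fintype.ofFinite _
  have hprod := prodB htne hBt
  have hjF : Fintype.card φ.range = 2 * j := by
    rw [← Nat.card_eq_fintype_card]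
    exact hj
  refine ⟨j, hj1, hGj, fun C => ?_⟩
  have hCC : C ^ (2 * j) = (C * C) ^ j := by
    rw [pow_mul, pow_two]
  have hsq : ∀ y ∈ φ.range, y * y = C * C → C ^ (2 * j) = 1 := by
    intro y hy h1
    rw [hCC, ← h1, ← pow_two, ← pow_mul, ← hj]
    have h2 : (⟨y, hy⟩ : φ.range) ^ Nat.card φ.range = 1 := pow_card_eq_one'
    exact congrArg Subtype.val h2
  constructor
  · intro hC
    have h1 : φ C ∈ (φ.comp A.subtype).range := ⟨⟨C, hC⟩, rfl⟩
    rw [← heq] at h1
    obtain ⟨y, hy⟩ := h1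
    have h2 : φ y.1 = φ C := hy
    rw [hφ, hφ] at h2
    exact hsq y.1 y.2 h2
  · intro hC
    have hx : C * C ∈ φ.range := ⟨C, hφ C⟩
    have h1 : ∀ g : φ.range, g * g ≠ ⟨C * C, hx⟩ := by
      intro g hg
      apply hC
      have h2 : g.1 * g.1 = C * C := congrArg Subtype.val hg
      have h3 : C * (g.1)⁻¹ ∈ A := by
        apply hA2
        rw [mul_mul_mul_comm, ← h2, ← mul_inv, mul_inv_cancel]
      have h4 := A.mul_mem h3 (hBA g.2)
      rw [inv_mul_cancel_right] at h4
      exact h4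
    have h2 := Q7.pow_half h1 hjF
    rw [hprod] at h2
    rw [hCC]
    exact congrArg Subtype.val h2

end Pool.Agent.Work.MP_8efaaa_nt.Q3
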