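import Mathlib
import Pool.Agent.Work.MP_8efaaa_nt.Q7.Defs
import Pool.Agent.Work.MP_8efaaa_nt.W14.CDi
import Pool.Agent.Work.MP_8efaaa_nt.W14.CEq
import Pool.Agent.Work.MP_8efaaa_nt.K6.ARg
import Pool.Agent.Work.MP_8efaaa_nt.K6.ARm

/-!
# Q3/Thu (M): `m = u^2 - 2 v^2`, the square root of the class of `2`, an ideal of norm `3`

`thue2`: `m` squarefree, `m % 8 = 7`, all prime factors are `± 1 (mod 8)`, so `2` is a square modulo each of them and there is `r` with `m ∣ r^2 - 2` (CRT over the prime factors of the squarefree `m`; induction). Thue (pigeonhole): `a`, `b` not both `0`, `|a|, |b| < √m` (`m` is not a square), `a = r b (mod m)`: `m ∣ a^2 - 2 b^2`, `-2 m < a^2 - 2 b^2 < m`, not `0`: it is `-m`. `u = a + 2 b`, `v = a + b`: `u^2 - 2 v^2 = -(a^2 - 2 b^2) = m`. (See `exists_uv7` in `Q7/Ar2.lean`.)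
`two_sq`: `u` is odd and prime to `v` (`m` is odd and squarefree). `α = 2 v + S`, `α (2 v - S) = 4 v^2 + 2 m = 2 u^2`. `𝔟 = (u, α)`; `r6 S 2 * 𝔟 * 𝔟 = (α)`: the left side is generated by the products of `2, S` with `u^2, u α, α^2`; all are multiples of `α`: `2 u^2 = α (2v - S)`, `S u^2 = α (v S + m)`. Conversely the quotients `2v - S, v S + m, 2 u, S u, 2 α, S α` generate the unit ideal: with `2 α` and `2 (2v - S)` also `8 v`; modulo the ideal `S = 2 v`, so `v S + m = 2 v^2 + m = u^2`: `u^2` and `8 v` are in it and coprime. So `cls (r6 S 2) * (cls 𝔟)^2 = 1`, `(cls 𝔟)^2 = cls (r6 S 2)` (`cls_two`).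
`exists_b3g`: Dirichlet (`Nat.forall_exists_prime_gt_and_eq_mod` or `exists_l` in W14/CDi as a model): a prime `l` with `l = 3 (mod 8)`, `l = -1 (mod m)`. `(-2m/l) = (-2/l)(m/l) = (m/l) = -(l/m) = -(-1/m) = 1` (`l = m = 3 (mod 4)`): `l ∣ t^2 + 2 m`: `ideal_of`.
-/

set_option autoImplicit false

namespace Pool.Agent.Work.MP_8efaaa_nt.Q3

open NumberField Pool.Agent.Work.MP_8efaaa_nt.R Pool.Agent.Work.MP_8efaaa_nt.N5
  Pool.Agent.Work.MP_8efaaa_nt.K6 Pool.Agent.Work.MP_8efaaa_nt.W14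
  Pool.Agent.Work.MP_8efaaa_nt.W6 Pool.Agent.Work.MP_8efaaa_nt.Q7
open scoped Classical nonZeroDivisors
variable {K : Type*} [Field K] [NumberField K] {a m : ℕ} {s : K} {S : 𝓞 K}

/-- every prime `± 1` modulo `8` is `2 y ^ 2 - x ^ 2` -/
private theorem thu_rep {l : ℕ} (hl : l.Prime) (h : l % 8 = 1 ∨ l % 8 = 7) :
    ∃ x y : ℤ, 2 * y ^ 2 - x ^ 2 = (l : ℤ) := by
  have : Fact l.Prime := ⟨hl⟩
  have hl2 : l ≠ 2 := by omega
  obtain ⟨t, ht⟩ : IsSquare (2 : ZMod l) := (ZMod.exists_sq_eq_two_iff hl2).2 h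
  have hk1 : l < (Nat.sqrt l + 1) * (Nat.sqrt l + 1) := Nat.lt_succ_sqrt l
  have hk2 : Nat.sqrt l * Nat.sqrt l < l := by
    refine lt_of_le_of_ne (Nat.sqrt_le l) fun he => ?_
    exact (Nat.prime_iff.1 hl).not_isSquare ⟨Nat.sqrt l, he.symm⟩
  obtain ⟨k, hk⟩ : ∃ k, k = Nat.sqrt l := ⟨_, rfl⟩
  rw [← hk] at hk1 hk2
  have hcard : (Finset.univ : Finset (ZMod l)).card <
      (Finset.range (k + 1) ×ˢ Finset.range (k + 1)).card := by
    rw [Finset.card_product, Finset.card_range, Finset.card_univ, ZMod.card]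
    exact hk1
  obtain ⟨P, hP, Q, hQ, hne, hPQ⟩ := Finset.exists_ne_map_eq_of_card_lt_of_maps_to hcard
    (f := fun z : ℕ × ℕ => (z.1 : ZMod l) - t * (z.2 : ZMod l)) (fun _ _ => Finset.mem_coe.2 (Finset.mem_univ _))
  obtain ⟨a, b⟩ := P
  obtain ⟨c, d⟩ := Q
  simp only [Finset.mem_product, Finset.mem_range] at hP hQ hPQ
  obtain ⟨x, hx⟩ : ∃ x : ℤ, x = (a : ℤ) - c := ⟨_, rfl⟩
  obtain ⟨y, hy⟩ : ∃ y : ℤ, y = (b : ℤ) - d := ⟨_, rfl⟩
  have hx1 : x ^ 2 ≤ (k : ℤ) * k := by nlinarith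
  have hy1 : y ^ 2 ≤ (k : ℤ) * k := by nlinarith
  have hk3 : (k : ℤ) * k < l := by exact_mod_cast hk2
  have hdvd : (l : ℤ) ∣ 2 * y ^ 2 - x ^ 2 := by
    rw [← ZMod.intCast_zmod_eq_zero_iff_dvd]
    have e1 : (x : ZMod l) = t * (y : ZMod l) := by
      rw [hx, hy]
      push_cast
      linear_combination hPQ
    push_cast
    rw [e1]
    linear_combination ((y : ZMod l) ^ 2) * ht
  have hne0 : 2 * y ^ 2 - x ^ 2 ≠ 0 := by
    intro h0
    have h1 : x * x = 2 * (y * y) := by linarith [h0, sq x, sq y]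
    rcases eq_or_ne y 0 with hy0 | hy0
    · rw [hy0] at h1
      have hx0 : x = 0 := by
        have : x * x = 0 := by linarith
        exact mul_self_eq_zero.1 this
      apply hne
      have h1 : a = c := by omega
      have h2 : b = d := by omega
      rw [h1, h2]
    · have h2 : Irrational (Real.sqrt 2) := irrational_sqrt_two
      have h3 : ((x : ℝ) / y) ^ 2 = 2 := by
        have hy' : (y : ℝ) ≠ 0 := by exact_mod_cast hy0
        rw [div_pow, div_eq_iff (pow_ne_zero 2 hy')]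
        have : ((x * x : ℤ) : ℝ) = ((2 * (y * y) : ℤ) : ℝ) := by rw [h1]
        push_cast at this
        linarith [this, sq (x : ℝ), sq (y : ℝ)]
      have h4 : Real.sqrt 2 = |(x : ℝ) / y| := by
        rw [← h3, Real.sqrt_sq_eq_abs]
      apply h2
      refine ⟨|(x : ℚ) / y|, ?_⟩
      rw [h4]
      push_cast
      rfl
  obtain ⟨w, hw⟩ := hdvd
  have hl0 : (0 : ℤ) < l := by exact_mod_cast hl.pos
  have hw1 : -1 < w := by
    by_contra hc
    nlinarith [sq_nonneg y]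
  have hw3 : w < 2 := by
    by_contra hc
    nlinarith [sq_nonneg x]
  have hw12 : w = 0 ∨ w = 1 := by omega
  rcases hw12 with rfl | rfl
  · rw [mul_zero] at hw
    exact absurd hw hne0
  · exact ⟨x, y, by linarith⟩

private theorem thu_t {l : ℕ} (hl : l.Prime) {n : ℕ} (h : jacobiSym (-(n : ℤ)) l = 1) :
    ∃ t : ℤ, (l : ℤ) ∣ t ^ 2 + n := by
  have : Fact l.Prime := ⟨hl⟩
  obtain ⟨y, hy⟩ := ZMod.isSquare_of_jacobiSym_eq_one h
  obtain ⟨t, rfl⟩ := ZMod.intCast_surjective y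
  refine ⟨t, (ZMod.intCast_zmod_eq_zero_iff_dvd _ _).1 ?_⟩
  push_cast at hy ⊢
  linear_combination -hy

private theorem thu_neg_two {l : ℕ} (h : l % 8 = 1 ∨ l % 8 = 3) : jacobiSym (-2) l = 1 := by
  have hlo : Odd l := Nat.odd_iff.2 (by omega)
  rw [show (-2 : ℤ) = -1 * 2 by norm_num, jacobiSym.mul_left, jacobiSym.at_neg_one hlo,
    jacobiSym.at_two hlo, ZMod.χ₄_nat_eq_if_mod_four, ZMod.χ₈_nat_eq_if_mod_eight]
  rcases h with h | h
  · have h4 : l % 4 = 1 := by omega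
    have h2 : l % 2 = 1 := by omega
    simp [h, h4, h2]
  · have h4 : l % 4 = 3 := by omega
    have h2 : l % 2 = 1 := by omega
    simp [h, h4, h2]


private theorem thu_aux (n : ℕ) : n ≠ 0 →
    (∀ l : ℕ, l.Prime → l ∣ n → l % 8 = 1 ∨ l % 8 = 7) → ∃ u v : ℤ, u ^ 2 - 2 * v ^ 2 = n := by
  induction n using induction_on_primes with
  | zero =>
    intro h
    exact absurd rfl h
  | one =>
    intro _ _
    exact ⟨1, 0, by norm_num⟩
  | prime_mul p n hp ih =>
    intro h0 h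
    obtain ⟨x, y, hxy⟩ := thu_rep hp (h p hp (Dvd.intro _ rfl))
    have hn : n ≠ 0 := by
      rintro rfl
      exact h0 (mul_zero p)
    obtain ⟨z, w, hzw⟩ := ih hn fun l hl hd => h l hl (hd.mul_left p)
    refine ⟨(x + 2 * y) * z + 2 * ((x + y) * w), (x + 2 * y) * w + (x + y) * z, ?_⟩
    push_cast
    rw [← hxy, ← hzw]
    ring

theorem thue2 (hm : Squarefree m) (hm8 : m % 8 = 7)
    (hpr : ∀ l : ℕ, l.Prime → l ∣ m → l % 8 = 1 ∨ l % 8 = 7) :
    ∃ u v : ℤ, u ^ 2 - 2 * v ^ 2 = m := by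
  have _ := hm8
  exact thu_aux m hm.ne_zero hpr

private theorem thu_cop (hsf : Squarefree m) (hm8 : m % 8 = 7) {u v : ℤ}
    (huv : u ^ 2 - 2 * v ^ 2 = m) : IsCoprime (u ^ 2) (8 * v) := by
  have hu : Odd u := by
    rw [← Int.not_even_iff_odd]
    rintro ⟨c, rfl⟩
    have h1 : (m : ℤ) = 2 * (2 * c ^ 2 - v ^ 2) := by
      rw [← huv]
      ring
    omega
  have hc : IsCoprime u v := by
    rw [Int.isCoprime_iff_gcd_eq_one]
    by_contra hc
    obtain ⟨r, hr, h1, h2⟩ := Nat.Prime.not_coprime_iff_dvd.1 hc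
    have h1' : (r : ℤ) ∣ u := Int.natCast_dvd.2 h1
    have h2' : (r : ℤ) ∣ v := Int.natCast_dvd.2 h2
    have hd : ((r * r : ℕ) : ℤ) ∣ (m : ℤ) := by
      rw [← huv]
      push_cast
      refine dvd_sub ?_ ?_
      · rw [pow_two]
        exact mul_dvd_mul h1' h1'
      · rw [pow_two]
        exact Dvd.dvd.mul_left (mul_dvd_mul h2' h2') 2
    have hd' : r * r ∣ m := Int.natCast_dvd_natCast.1 hd
    have := hsf r hd'
    exact hr.one_lt.ne' (Nat.isUnit_iff.1 this)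
  have hu2 : IsCoprime u 2 := by
    obtain ⟨j, hj⟩ := hu
    refine ⟨1, -j, ?_⟩
    rw [hj]
    ring
  have h8 : IsCoprime u 8 := by
    have h3 : IsCoprime u (2 ^ 3) := hu2.pow_right
    norm_num at h3
    exact h3
  exact (h8.mul_right hc).pow_left

private theorem thu_id {R : Type*} [CommRing R] {S U V M x y : R} (hS : S * S = -(2 * M))
    (hu : U * U - 2 * (V * V) = M) (hxy : x * (U * U) + y * (8 * V) = 1) :
    Ideal.span {(2 : R), S} * (Ideal.span {U, 2 * V + S} * Ideal.span {U, 2 * V + S}) =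
      Ideal.span {2 * V + S} := by
  apply le_antisymm
  · rw [Ideal.span_mul_span', Ideal.span_mul_span', Ideal.span_le]
    rintro _ ⟨r, hr, _, ⟨b, hb, c, hc, rfl⟩, rfl⟩
    rw [SetLike.mem_coe, Ideal.mem_span_singleton]
    simp only [Set.mem_insert_iff, Set.mem_singleton_iff] at hr hb hc
    show 2 * V + S ∣ r * (b * c)
    rcases hb with rfl | rfl
    · rcases hc with rfl | rfl
      · rcases hr with rfl | rfl
        · exact ⟨2 * V - S, by linear_combination 2 * hu + hS⟩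
        · exact ⟨V * r + M, by linear_combination r * hu - V * hS⟩
      · exact Dvd.dvd.mul_left (dvd_mul_left _ _) _
    · exact Dvd.dvd.mul_left (dvd_mul_right _ _) _
  · rw [Ideal.span_singleton_le_iff_mem]
    have m2 : (2 : R) ∈ Ideal.span {(2 : R), S} := Ideal.subset_span (by simp)
    have mS : S ∈ Ideal.span {(2 : R), S} := Ideal.subset_span (by simp)
    have mU : U ∈ Ideal.span {U, 2 * V + S} := Ideal.subset_span (by simp)
    have mA : 2 * V + S ∈ Ideal.span {U, 2 * V + S} := Ideal.subset_span (by simp)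
    have h1 := Ideal.mul_mem_mul mS (Ideal.mul_mem_mul mU mU)
    have h2 := Ideal.mul_mem_mul m2 (Ideal.mul_mem_mul mU mU)
    have h3 := Ideal.mul_mem_mul m2 (Ideal.mul_mem_mul mA mA)
    have h4 := Ideal.add_mem _ (Ideal.add_mem _ (Ideal.mul_mem_left _ x h1)
      (Ideal.mul_mem_left _ (x * V + 2 * y) h2)) (Ideal.mul_mem_left _ y h3)
    have h5 : x * (S * (U * U)) + (x * V + 2 * y) * (2 * (U * U)) +
        y * (2 * ((2 * V + S) * (2 * V + S))) = 2 * V + S := by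
      linear_combination (2 * V + S) * hxy + 4 * y * hu + 2 * y * hS
    rw [h5] at h4
    exact h4

theorem two_sq (hb : B6 K a s) (hS : algebraMap (𝓞 K) K S = s) (ham : a = 2 * m)
    (hm8 : m % 8 = 7) {u v : ℤ} (huv : u ^ 2 - 2 * v ^ 2 = m) :
    ∃ C : ClassGroup (𝓞 K), C * C = cls (r6 S 2) := by
  subst ham
  have hsf : Squarefree m := hb.sf.squarefree_of_dvd (Dvd.intro_left 2 rfl)
  obtain ⟨x, y, hxy⟩ := thu_cop hsf hm8 huv
  have hSS : S * S = -(2 * (m : 𝓞 K)) := by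
    have h := (q6 hb hS).sq
    rw [h]
    push_cast
    ring
  have hu' : (u : 𝓞 K) * u - 2 * ((v : 𝓞 K) * v) = (m : 𝓞 K) := by
    have h := congrArg (Int.cast (R := 𝓞 K)) huv
    push_cast at h
    linear_combination h
  have hxy' : (x : 𝓞 K) * ((u : 𝓞 K) * u) + y * (8 * (v : 𝓞 K)) = 1 := by
    have h := congrArg (Int.cast (R := 𝓞 K)) hxy
    push_cast at h
    linear_combination h
  have hid := thu_id hSS hu' hxy'
  have hα0 : 2 * (v : 𝓞 K) + S ≠ 0 := by
    intro h0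
    have h1 : (2 * (v : 𝓞 K) + S) * (2 * (v : 𝓞 K) - S) = 2 * ((u : 𝓞 K) * u) := by
      linear_combination -hSS - 2 * hu'
    rw [h0, zero_mul] at h1
    have h2 : (u : 𝓞 K) = 0 := by
      rcases mul_eq_zero.1 h1.symm with h | h
      · exact absurd h two_ne_zero
      · exact mul_self_eq_zero.1 h
    have h3 : u = 0 := by exact_mod_cast h2
    rw [h3] at huv
    have h4 : 0 ≤ v ^ 2 := sq_nonneg v
    omega
  have h20 : r6 S 2 ≠ 0 := r6_ne hb hS ⟨m, rfl⟩
  have hb0 : Ideal.span {(u : 𝓞 K), 2 * (v : 𝓞 K) + S} ≠ 0 := by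
    intro h0
    have h1 : 2 * (v : 𝓞 K) + S ∈ Ideal.span {(u : 𝓞 K), 2 * (v : 𝓞 K) + S} :=
      Ideal.subset_span (by simp)
    rw [h0] at h1
    exact hα0 h1
  have hr2 : r6 S 2 = Ideal.span {(2 : 𝓞 K), S} := by
    unfold r6
    rw [Nat.cast_ofNat]
  have hc := cls_span hα0
  rw [← hid, ← hr2, cls_mul h20 (mul_ne_zero hb0 hb0), cls_mul hb0 hb0] at hc
  refine ⟨cls (Ideal.span {(u : 𝓞 K), 2 * (v : 𝓞 K) + S}), ?_⟩
  obtain ⟨ht, -⟩ := cls_two hb hS
  rw [← ht] at hc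
  exact mul_left_cancel hc

theorem exists_b3g (hb : B6 K a s) (hS : algebraMap (𝓞 K) K S = s) (ham : a = 2 * m)
    (hm8 : m % 8 = 7) : ∃ b : Ideal (𝓞 K), Ideal.absNorm b % 8 = 3 := by
  subst ham
  have hmo : Odd m := Nat.odd_iff.2 (by omega)
  have h8m : Nat.Coprime 8 m := by
    rw [show 8 = 2 ^ 3 by norm_num]
    exact Nat.Coprime.pow_left 3 (Nat.coprime_two_left.2 hmo)
  obtain ⟨x, hx, hx'⟩ := Nat.chineseRemainder h8m 3 (m - 1)
  have hc8 : Nat.Coprime x 8 := by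
    unfold Nat.Coprime
    rw [hx.gcd_eq]
    decide
  have hcm : Nat.Coprime x m := by
    unfold Nat.Coprime
    rw [hx'.gcd_eq]
    exact (Nat.coprime_self_sub_left (by omega)).2 (Nat.coprime_one_left m)
  obtain ⟨l, hl1, hl2, hl3⟩ := Nat.forall_exists_prime_gt_and_modEq m (q := 8 * m)
    (mul_ne_zero (by norm_num) (by omega)) (hc8.mul_right hcm)
  have hl8 : l % 8 = 3 := (Nat.ModEq.of_dvd ⟨m, rfl⟩ hl3).trans hx
  have hlm : l % m = (m - 1) % m := (Nat.ModEq.of_dvd ⟨8, by ring⟩ hl3).trans hx'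
  have j2 : jacobiSym m l = 1 := by
    rw [jacobiSym.quadratic_reciprocity_three_mod_four (by omega) (by omega)]
    have h1 : jacobiSym (l : ℤ) m = jacobiSym (-1) m := by
      have h2 : jacobiSym (l : ℤ) m = jacobiSym ((m - 1 : ℕ) : ℤ) m := by
        apply jacobiSym.mod_left'
        exact_mod_cast hlm
      rw [h2, Nat.cast_sub (by omega)]
      apply jacobiSym.mod_left'
      push_cast
      rw [sub_eq_add_neg, add_comm, Int.add_emod_right]
    rw [h1, jacobiSym.at_neg_one hmo, ZMod.χ₄_nat_three_mod_four (by omega)]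
    norm_num
  obtain ⟨t, ht⟩ := thu_t hl2 (n := 2 * m) (by
    have h1 : (-((2 * m : ℕ) : ℤ)) = -2 * (m : ℤ) := by
      push_cast
      ring
    rw [h1, jacobiSym.mul_left, thu_neg_two (Or.inr hl8), j2]
    norm_num)
  obtain ⟨b, hb'⟩ := ideal_of hb hS hl2 (by omega) ht
  exact ⟨b, by rw [hb', hl8]⟩

end Pool.Agent.Work.MP_8efaaa_nt.Q3
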