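import Mathlib
import Pool.Agent.Work.MP_8efaaa_nt.Q7.Defs
import Pool.Agent.Work.MP_8efaaa_nt.W14.CHi
import Pool.Agent.Work.MP_8efaaa_nt.W14.CHf
import Pool.Agent.Work.MP_8efaaa_nt.W14.CCh
import Pool.Agent.Work.MP_8efaaa_nt.W14.CCl
import Pool.Agent.Work.MP_8efaaa_nt.W14.CNp
import Pool.Agent.Work.MP_8efaaa_nt.Q3.GrQ
import Pool.Agent.Work.MP_8efaaa_nt.Q3.Thu

/-!
# Q3/Cl3 (M): the class group for three primes `± 1 (mod 8)`

`a = 2 l1 l2 l3`, `m = l1 l2 l3`, `G = ClassGroup (𝓞 K)`, `L_i = cls (r6 S l_i)`, `t = cls (r6 S 2)`. Private lemmas of `W14/CNp.lean` to copy: `nonprin` (`r6 S d`, `d ∣ a`, `1 < d < a`, is not principal), `csq` (squares `1`), `cmul`, `call`, `cone`.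
(1) `g * g = 1` iff `g = cls (r6 S d)`, `d ∣ a` (`hil6`); `cls (r6 S d) = cls (r6 S (a/d))` (`cmul`, `call`), so one may take `d` odd: `d ∣ m`, eight divisors `1, l_i, l_i l_k, m`; they are different: `cls (r6 S d) = cls (r6 S d')` gives that `r6 S (d d' / gcd^2)` is principal, so `d = d'` (it is odd, not `a`). `cls (r6 S m) = t` (`cls_two`), `cls (r6 S (l2 l3)) = t L1`. So the eight elements are `1, t, L1, L2, L3, t L1, t L2, t L3`: `h8`.
(2) `L1`, `t L1` are not squares: if `L1 = C C` or `t L1 = C C`: `chi_sq` for the prime `l2` and `b = r6 S l1` (norm `l1`, prime to `l2`; `cls b = C C` or `= t (C C)`): `jacobiSym l1 l2 = 1`; the same for `l3`: `jacobiSym l1 l3 = 1`; for the prime `l1` and `b = r6 S (l2 l3)` (norm `l2 l3`, class `t L1`): `jacobiSym (l2 * l3) l1 = 1`; against `n1`. So `honly`.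
(3) `A` = the classes of the odd ideals of norm `± 1 (mod 8)`: preimage of `H` (`exists_H` with `exists_b3g`) under `G → CG S`; index `2`; for `c ∈ M13`: `cls c ∈ A` iff `N c = 1 (mod 8)`. `hA2`: `r6 S d`, `d ∣ m`, has norm `d = ± 1 (mod 8)` (if `d = 7 (mod 8)` use `(1+S) r6 S d ∈ M13` of the same class, norm `1`). `t' `: `thue2`, `two_sq`.
(4) `grpQ`: `j`. `Nat.card (CG S) = 8 j`: `CG S` is the quotient by `{1, t}`. `hpow`: `cls b ∈ A` or not.
-/

set_option autoImplicit false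

namespace Pool.Agent.Work.MP_8efaaa_nt.Q3

open NumberField Pool.Agent.Work.MP_8efaaa_nt.R Pool.Agent.Work.MP_8efaaa_nt.N5
  Pool.Agent.Work.MP_8efaaa_nt.K6 Pool.Agent.Work.MP_8efaaa_nt.W14
  Pool.Agent.Work.MP_8efaaa_nt.W6 Pool.Agent.Work.MP_8efaaa_nt.Q7
open scoped Classical nonZeroDivisors

section classes

variable {K : Type*} [Field K] [NumberField K] {a : ℕ} {s : K} {S : 𝓞 K} {τ : 𝓞 K ≃+* 𝓞 K}

private theorem nonprin (hb : B6 K a s) (hS : algebraMap (𝓞 K) K S = s) {d : ℕ} (hd : d ∣ a)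
    (h1 : 1 < d) (h2 : d < a) : cls (r6 S d) ≠ 1 := by
  intro h
  obtain ⟨γ, -, hγ⟩ := prin_of_cls (r6_ne hb hS hd) h
  obtain ⟨x, y, hxy⟩ := coords6 hb γ
  have h3 := norm_lin6 hb hxy
  rw [← hγ, norm_r6 hb hS hd] at h3
  have h4 : y = 0 := by
    by_contra hy
    have h5 : 1 ≤ y ^ 2 := by
      have := sq_nonneg y
      have h6 : y ^ 2 ≠ 0 := pow_ne_zero 2 hy
      omega
    have h7 : (d : ℤ) < a := by exact_mod_cast h2
    nlinarith [sq_nonneg x]
  rw [h4] at h3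
  have h5 : d = x.natAbs * x.natAbs := by
    have h6 : ((x.natAbs * x.natAbs : ℕ) : ℤ) = x ^ 2 := by
      push_cast
      rw [← pow_two, sq_abs]
    have h7 : (d : ℤ) = ((x.natAbs * x.natAbs : ℕ) : ℤ) := by
      rw [h6, h3]
      ring
    exact_mod_cast h7
  have h6 : IsUnit x.natAbs := hb.sf _ (h5 ▸ hd)
  rw [Nat.isUnit_iff] at h6
  rw [h6] at h5
  omega

private theorem csq (hb : B6 K a s) (hS : algebraMap (𝓞 K) K S = s) {d : ℕ} (hd : d ∣ a) :
    cls (r6 S d) * cls (r6 S d) = 1 := by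
  have h := r6_ne hb hS hd
  rw [← cls_mul h h, r6_sq hb hS hd]
  apply cls_span
  have h1 : d ≠ 0 := by
    rintro rfl
    exact hb.sf.ne_zero (Nat.eq_zero_of_zero_dvd hd)
  exact_mod_cast h1

private theorem cmul (hb : B6 K a s) (hS : algebraMap (𝓞 K) K S = s) {d e : ℕ} (hd : d * e ∣ a) :
    cls (r6 S (d * e)) = cls (r6 S d) * cls (r6 S e) := by
  rw [r6_mul hb hS hd, cls_mul (r6_ne hb hS (dvd_of_mul_right_dvd hd))
    (r6_ne hb hS (dvd_of_mul_left_dvd hd))]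

private theorem cone (hb : B6 K a s) (hS : algebraMap (𝓞 K) K S = s) : cls (r6 S 1) = 1 := by
  have h := csq hb hS (one_dvd a)
  have h1 := cmul hb hS (d := 1) (e := 1) (by rw [mul_one]; exact one_dvd a)
  rw [mul_one, h] at h1
  exact h1

private theorem cls_inj (hb : B6 K a s) (hS : algebraMap (𝓞 K) K S = s) {m : ℕ}
    (ham : a = 2 * m) {d e : ℕ} (hd : d ∣ m) (he : e ∣ m)
    (h : cls (r6 S d) = cls (r6 S e)) : d = e := by
  have ha0 : a ≠ 0 := hb.sf.ne_zero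
  have hm0 : 0 < m := by omega
  have hma : m ∣ a := ⟨2, by omega⟩
  obtain ⟨d1, e1, hc, hd1, he1⟩ := Nat.exists_coprime d e
  set g := Nat.gcd d e with hg
  have hda : d1 * g ∣ a := by rw [← hd1]; exact hd.trans hma
  have hea : e1 * g ∣ a := by rw [← he1]; exact he.trans hma
  have hd1m : d1 ∣ m := (dvd_mul_right d1 g).trans (by rw [← hd1]; exact hd)
  have he1m : e1 ∣ m := (dvd_mul_right e1 g).trans (by rw [← he1]; exact he)
  have h2 : cls (r6 S d1) = cls (r6 S e1) := by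
    rw [hd1, he1, cmul hb hS hda, cmul hb hS hea] at h
    exact mul_right_cancel h
  have hde : d1 * e1 ∣ m := Nat.Coprime.mul_dvd_of_dvd_of_dvd hc hd1m he1m
  have h3 : cls (r6 S (d1 * e1)) = 1 := by
    rw [cmul hb hS (hde.trans hma), ← h2]
    exact csq hb hS (hd1m.trans hma)
  have h4 : d1 * e1 ≤ m := Nat.le_of_dvd hm0 hde
  have h5 : d1 * e1 = 1 := by
    by_contra hne
    have h6 : d1 * e1 ≠ 0 := fun h0 => by
      rw [h0] at hde
      exact hm0.ne' (Nat.eq_zero_of_zero_dvd hde)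
    exact nonprin hb hS (hde.trans hma) (by omega) (by omega) h3
  have h6 : d1 = 1 := Nat.eq_one_of_mul_eq_one_right h5
  have h7 : e1 = 1 := Nat.eq_one_of_mul_eq_one_left h5
  rw [hd1, he1, h6, h7]

private theorem cls_ev (hb : B6 K a s) (hS : algebraMap (𝓞 K) K S = s) {m : ℕ}
    (ham : a = 2 * m) : cls (r6 S m) = cls (r6 S 2) := by
  have h := (cls_two hb hS).2
  have h1 : a / 2 = m := by omega
  rwa [h1] at h

private theorem cls_surj_m (hb : B6 K a s) (hS : algebraMap (𝓞 K) K S = s) (hτ : τ S = -S) {m : ℕ}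
    (ham : a = 2 * m) {C : ClassGroup (𝓞 K)} (hC : C * C = 1) : ∃ d, d ∣ m ∧ C = cls (r6 S d) := by
  have hma : m ∣ a := ⟨2, by omega⟩
  obtain ⟨d, hd, rfl⟩ := hil6 hb hS hτ hC
  have hd' := hd
  rw [ham] at hd'
  obtain ⟨y, z, hy, hz, rfl⟩ := (Nat.dvd_mul).1 hd'
  rcases (Nat.dvd_prime Nat.prime_two).1 hy with rfl | rfl
  · exact ⟨z, hz, by rw [one_mul]⟩
  · obtain ⟨e, he⟩ := hz
    have hma' : z * e ∣ a := by rw [← he]; exact hma
    refine ⟨e, ⟨z, by rw [he, mul_comm]⟩, ?_⟩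
    rw [cmul hb hS hd, ← cls_ev hb hS ham, he, cmul hb hS hma', mul_comm (cls (r6 S z)),
      mul_assoc, csq hb hS (dvd_of_mul_right_dvd hma'), mul_one]

private theorem notsq {p q r : ℕ} (hp : p.Prime) (hq : q.Prime) (hr : r.Prime) (hpq : p ≠ q)
    (hpr : p ≠ r) (mp : p % 8 = 1 ∨ p % 8 = 7) (mq : q % 8 = 1 ∨ q % 8 = 7)
    (mr : r % 8 = 1 ∨ r % 8 = 7) (hb : B6 K a s) (ha : a = 2 * (p * (q * r)))
    (hS : algebraMap (𝓞 K) K S = s) (hτ : τ S = -S) {C : ClassGroup (𝓞 K)}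
    (h : cls (r6 S p) = C * C ∨ cls (r6 S p) = cls (r6 S 2) * (C * C)) :
    jacobiSym p q = 1 ∧ jacobiSym p r = 1 ∧ jacobiSym (q * r) p = 1 := by
  have hpa : p ∣ a := ⟨2 * (q * r), by rw [ha]; ring⟩
  have hqa : q ∣ a := ⟨2 * (p * r), by rw [ha]; ring⟩
  have hra : r ∣ a := ⟨2 * (p * q), by rw [ha]; ring⟩
  have hqra : q * r ∣ a := ⟨2 * p, by rw [ha]; ring⟩
  have hpqra : p * (q * r) ∣ a := ⟨2, by rw [ha]; ring⟩
  have htt := (cls_two hb hS).1
  have e : cls (r6 S (q * r)) = cls (r6 S 2) * cls (r6 S p) := by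
    rw [← cls_ev hb hS ha, cmul hb hS hpqra, mul_comm (cls (r6 S p)), mul_assoc,
      csq hb hS hpa, mul_one]
  refine ⟨?_, ?_, ?_⟩
  · have h1 := chi_sq hb hS hτ hq mq hqa (b := r6 S p) (r6_ne hb hS hpa) (by
      rw [norm_r6 hb hS hpa]
      exact fun h => hpq ((Nat.prime_dvd_prime_iff_eq hq hp).1 h).symm) h
    rwa [norm_r6 hb hS hpa] at h1
  · have h1 := chi_sq hb hS hτ hr mr hra (b := r6 S p) (r6_ne hb hS hpa) (by
      rw [norm_r6 hb hS hpa]
      exact fun h => hpr ((Nat.prime_dvd_prime_iff_eq hr hp).1 h).symm) h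
    rwa [norm_r6 hb hS hpa] at h1
  · have h2 : cls (r6 S (q * r)) = C * C ∨ cls (r6 S (q * r)) = cls (r6 S 2) * (C * C) := by
      rcases h with h | h
      · right
        rw [e, h]
      · left
        rw [e, h, ← mul_assoc, htt, one_mul]
    have h1 := chi_sq hb hS hτ hp mp hpa (b := r6 S (q * r)) (r6_ne hb hS hqra) (by
      rw [norm_r6 hb hS hqra]
      intro h3
      rcases (Nat.Prime.dvd_mul hp).1 h3 with h4 | h4
      · exact hpq ((Nat.prime_dvd_prime_iff_eq hp hq).1 h4)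
      · exact hpr ((Nat.prime_dvd_prime_iff_eq hp hr).1 h4)) h2
    rw [norm_r6 hb hS hqra] at h1
    push_cast at h1
    exact h1

end classes

private theorem div_mod {p q r d : ℕ} (hp : p.Prime) (hq : q.Prime) (hr : r.Prime)
    (mp : p % 8 = 1 ∨ p % 8 = 7) (mq : q % 8 = 1 ∨ q % 8 = 7) (mr : r % 8 = 1 ∨ r % 8 = 7)
    (hd : d ∣ p * q * r) : d % 8 = 1 ∨ d % 8 = 7 := by
  obtain ⟨y, z, hy, hz, rfl⟩ := (Nat.dvd_mul).1 hd
  obtain ⟨u, v, hu, hv, rfl⟩ := (Nat.dvd_mul).1 hy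
  have hmul : ∀ x y : ℕ, (x % 8 = 1 ∨ x % 8 = 7) → (y % 8 = 1 ∨ y % 8 = 7) →
      ((x * y) % 8 = 1 ∨ (x * y) % 8 = 7) := by
    intro x y hx hy
    rw [Nat.mul_mod]
    rcases hx with hx | hx <;> rcases hy with hy | hy <;> rw [hx, hy] <;> norm_num
  have hu1 : u % 8 = 1 ∨ u % 8 = 7 := by
    rcases (Nat.dvd_prime hp).1 hu with rfl | rfl
    · left; norm_num
    · exact mp
  have hv1 : v % 8 = 1 ∨ v % 8 = 7 := by
    rcases (Nat.dvd_prime hq).1 hv with rfl | rfl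
    · left; norm_num
    · exact mq
  have hz1 : z % 8 = 1 ∨ z % 8 = 7 := by
    rcases (Nat.dvd_prime hr).1 hz with rfl | rfl
    · left; norm_num
    · exact mr
  exact hmul _ _ (hmul _ _ hu1 hv1) hz1

theorem cls3 {K : Type*} [Field K] [NumberField K] {l1 l2 l3 : ℕ} {s : K} {S : 𝓞 K}
    {τ : 𝓞 K ≃+* 𝓞 K} (h1 : l1.Prime) (h2 : l2.Prime) (h3 : l3.Prime) (h12 : l1 ≠ l2)
    (h13 : l1 ≠ l3) (h23 : l2 ≠ l3) (m1 : l1 % 8 = 1 ∨ l1 % 8 = 7)
    (m2 : l2 % 8 = 1 ∨ l2 % 8 = 7) (m3 : l3 % 8 = 1 ∨ l3 % 8 = 7)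
    (hm : (l1 * l2 * l3) % 8 = 7)
    (n1 : ¬ (jacobiSym l1 l2 = 1 ∧ jacobiSym l1 l3 = 1 ∧ jacobiSym (l2 * l3) l1 = 1))
    (n2 : ¬ (jacobiSym l2 l1 = 1 ∧ jacobiSym l2 l3 = 1 ∧ jacobiSym (l1 * l3) l2 = 1))
    (n3 : ¬ (jacobiSym l3 l1 = 1 ∧ jacobiSym l3 l2 = 1 ∧ jacobiSym (l1 * l2) l3 = 1))
    (hb : B6 K (2 * (l1 * l2 * l3)) s) (hS : algebraMap (𝓞 K) K S = s) (hτ : τ S = -S) :
    cls (r6 S 2) ≠ 1 ∧ (∃ b : Ideal (𝓞 K), Ideal.absNorm b % 8 = 3) ∧
      ∃ j : ℕ, Nat.card (CG S) = 8 * j ∧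
        ∀ b : M13 K, (Ideal.absNorm (b : Ideal (𝓞 K)) % 8 = 1 →
          cls (b : Ideal (𝓞 K)) ^ (2 * j) = 1) ∧
          (Ideal.absNorm (b : Ideal (𝓞 K)) % 8 = 3 →
          cls (b : Ideal (𝓞 K)) ^ (2 * j) = cls (r6 S 2)) := by
  have hsf := hb.sf
  obtain ⟨m, hmdef⟩ : ∃ m, m = l1 * l2 * l3 := ⟨_, rfl⟩
  obtain ⟨a, hadef⟩ : ∃ a, a = 2 * (l1 * l2 * l3) := ⟨_, rfl⟩
  rw [← hadef] at hb hsf
  have ham : a = 2 * m := by rw [hadef, hmdef]
  have hm8 : m % 8 = 7 := by rw [hmdef]; exact hm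
  have hm0 : 0 < m := by omega
  have hma : m ∣ a := ⟨2, by omega⟩
  have ha16 : a % 16 = 14 := by omega
  have h2a : 2 ∣ a := ⟨m, ham⟩
  have hmsf : Squarefree m := hsf.squarefree_of_dvd hma
  have htt := (cls_two hb hS).1
  have htm := cls_ev hb hS ham
  have ht1 : cls (r6 S 2) ≠ 1 := nonprin hb hS h2a (by norm_num) (by omega)
  obtain ⟨b3, hb3⟩ := exists_b3g hb hS ham hm8
  obtain ⟨u, v, huv⟩ := thue2 hmsf hm8 (by
    intro l hl hlm
    rw [hmdef] at hlm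
    rcases (Nat.Prime.dvd_mul hl).1 hlm with h | h
    · rcases (Nat.Prime.dvd_mul hl).1 h with h | h
      · rw [(Nat.prime_dvd_prime_iff_eq hl h1).1 h]; exact m1
      · rw [(Nat.prime_dvd_prime_iff_eq hl h2).1 h]; exact m2
    · rw [(Nat.prime_dvd_prime_iff_eq hl h3).1 h]; exact m3)
  obtain ⟨t', ht'⟩ := two_sq hb hS ham hm8 huv
  obtain ⟨H, hHi, hH⟩ := exists_H hb hS hτ ha16 hb3
  have hmk : Function.Surjective
      (QuotientGroup.mk' (Subgroup.zpowers (cls (r6 S 2)))) := QuotientGroup.mk'_surjective _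
  set A : Subgroup (ClassGroup (𝓞 K)) :=
    H.comap (QuotientGroup.mk' (Subgroup.zpowers (cls (r6 S 2)))) with hA
  have hAi : A.index = 2 := by
    rw [hA, Subgroup.index_comap_of_surjective _ hmk, hHi]
  have hAM : ∀ c : M13 K, cls (c : Ideal (𝓞 K)) ∈ A ↔
      Ideal.absNorm (c : Ideal (𝓞 K)) % 8 = 1 := fun c => hH c
  -- the eight classes
  have h8 : Nat.card {g : ClassGroup (𝓞 K) // g * g = 1} = 8 := by
    have hbij : Function.Bijective (fun d : {d // d ∈ m.divisors} =>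
        (⟨cls (r6 S d.1), csq hb hS ((Nat.dvd_of_mem_divisors d.2).trans hma)⟩ :
          {g : ClassGroup (𝓞 K) // g * g = 1})) := by
      constructor
      · intro d e hde
        have h4 := congrArg Subtype.val hde
        exact Subtype.ext (cls_inj hb hS ham (Nat.dvd_of_mem_divisors d.2)
          (Nat.dvd_of_mem_divisors e.2) h4)
      · rintro ⟨g, hg⟩
        obtain ⟨d, hd, rfl⟩ := cls_surj_m hb hS hτ ham hg
        exact ⟨⟨d, Nat.mem_divisors.2 ⟨hd, hm0.ne'⟩⟩, rfl⟩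
    rw [← Nat.card_congr (Equiv.ofBijective _ hbij), Nat.card_eq_fintype_card, Fintype.card_coe,
      hmdef]
    have c12 : Nat.Coprime l1 l2 := (Nat.coprime_primes h1 h2).2 h12
    have c13 : Nat.Coprime l1 l3 := (Nat.coprime_primes h1 h3).2 h13
    have c23 : Nat.Coprime l2 l3 := (Nat.coprime_primes h2 h3).2 h23
    have hcard : ∀ l : ℕ, l.Prime → l.divisors.card = 2 := by
      intro l hl
      rw [hl.divisors, Finset.card_pair hl.one_lt.ne]
    rw [Nat.Coprime.card_divisors_mul (Nat.Coprime.mul_left c13 c23),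
      Nat.Coprime.card_divisors_mul c12, hcard _ h1, hcard _ h2, hcard _ h3]
  -- they are in `A`
  have hA2 : ∀ g : ClassGroup (𝓞 K), g * g = 1 → g ∈ A := by
    intro g hg
    obtain ⟨d, hd, rfl⟩ := cls_surj_m hb hS hτ ham hg
    have hda : d ∣ a := hd.trans hma
    rcases div_mod h1 h2 h3 m1 m2 m3 (hmdef ▸ hd) with h | h
    · have h4 : Ideal.absNorm (r6 S d) % 8 = 1 := by rw [norm_r6 hb hS hda, h]
      exact (hAM ⟨r6 S d, Or.inl h4⟩).2 h4
    · have hg1 : Ideal.absNorm (Ideal.span {1 + S}) = 1 + a := norm_g hb hS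
      have hS1 : (1 : 𝓞 K) + S ≠ 0 := by
        intro h0
        rw [h0] at hg1
        simp only [Set.singleton_zero, Ideal.span_zero, Ideal.absNorm_bot] at hg1
        omega
      have hspan0 : (Ideal.span {1 + S} : Ideal (𝓞 K)) ≠ 0 := fun h2 =>
        hS1 (Ideal.span_singleton_eq_bot.1 h2)
      have h4 : Ideal.absNorm (Ideal.span {1 + S} * r6 S d) % 8 = 1 := by
        have h78 : (1 + a) % 8 = 7 := by omega
        rw [map_mul, hg1, norm_r6 hb hS hda, Nat.mul_mod, h, h78]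
      have h5 : cls (Ideal.span {1 + S} * r6 S d) = cls (r6 S d) := by
        rw [cls_mul hspan0 (r6_ne hb hS hda), cls_span hS1, one_mul]
      have h6 := (hAM ⟨Ideal.span {1 + S} * r6 S d, Or.inl h4⟩).2 h4
      have h7 : cls (((⟨Ideal.span {1 + S} * r6 S d, Or.inl h4⟩ : M13 K)) : Ideal (𝓞 K)) =
        cls (r6 S d) := h5
      rwa [h7] at h6
  -- the squares among them
  have honly : ∀ g : ClassGroup (𝓞 K), (g * g) * (g * g) = 1 →
      g * g = 1 ∨ g * g = cls (r6 S 2) := by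
    intro g hg
    obtain ⟨d, hd, hC⟩ := cls_surj_m hb hS hτ ham hg
    rw [hmdef] at hd
    obtain ⟨y, v3, hy, hv3, rfl⟩ := (Nat.dvd_mul).1 hd
    obtain ⟨v1, v2, hv1, hv2, rfl⟩ := (Nat.dvd_mul).1 hy
    have hda : v1 * v2 * v3 ∣ a := (hmdef ▸ hd : v1 * v2 * v3 ∣ m).trans hma
    rw [cmul hb hS hda, cmul hb hS ((dvd_mul_right _ _).trans hda)] at hC
    have hma' : l1 * l2 * l3 ∣ a := hmdef ▸ hma
    have e0 := htm
    rw [hmdef, cmul hb hS hma', cmul hb hS ((dvd_mul_right _ _).trans hma')] at e0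
    have e1 := cone hb hS
    have s1 := csq hb hS (d := l1) (((dvd_mul_right _ _).trans (dvd_mul_right _ _)).trans hma')
    have s2 := csq hb hS (d := l2) (((dvd_mul_left _ _).trans (dvd_mul_right _ _)).trans hma')
    have s3 := csq hb hS (d := l3) ((dvd_mul_left _ _).trans hma')
    have N1 : ∀ C : ClassGroup (𝓞 K),
        ¬ (cls (r6 S l1) = C * C ∨ cls (r6 S l1) = cls (r6 S 2) * (C * C)) := fun C h =>
      n1 (notsq h1 h2 h3 h12 h13 m1 m2 m3 hb (by rw [hadef]; ring) hS hτ h)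
    have N2 : ∀ C : ClassGroup (𝓞 K),
        ¬ (cls (r6 S l2) = C * C ∨ cls (r6 S l2) = cls (r6 S 2) * (C * C)) := fun C h =>
      n2 (notsq h2 h1 h3 (Ne.symm h12) h23 m2 m1 m3 hb (by rw [hadef]; ring) hS hτ h)
    have N3 : ∀ C : ClassGroup (𝓞 K),
        ¬ (cls (r6 S l3) = C * C ∨ cls (r6 S l3) = cls (r6 S 2) * (C * C)) := fun C h =>
      n3 (notsq h3 h1 h2 (Ne.symm h13) (Ne.symm h23) m3 m1 m2 hb (by rw [hadef]; ring) hS hτ h)
    rcases (Nat.dvd_prime h1).1 hv1 with rfl | rfl <;>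
      rcases (Nat.dvd_prime h2).1 hv2 with rfl | rfl <;>
      rcases (Nat.dvd_prime h3).1 hv3 with rfl | rfl
    · left
      rw [hC, e1, one_mul, one_mul]
    · exfalso
      rw [e1, one_mul, one_mul] at hC
      exact N3 g (Or.inl hC.symm)
    · exfalso
      rw [e1, one_mul, mul_one] at hC
      exact N2 g (Or.inl hC.symm)
    · exfalso
      rw [e1, one_mul] at hC
      refine N1 g (Or.inr ?_)
      rw [← e0, hC]
      calc cls (r6 S l1) = cls (r6 S l1) * (cls (r6 S v2) * cls (r6 S v2)) *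
            (cls (r6 S v3) * cls (r6 S v3)) := by rw [s2, s3, mul_one, mul_one]
        _ = _ := by ac_rfl
    · exfalso
      rw [e1, mul_one, mul_one] at hC
      exact N1 g (Or.inl hC.symm)
    · exfalso
      rw [e1, mul_one] at hC
      refine N2 g (Or.inr ?_)
      rw [← e0, hC]
      calc cls (r6 S l2) = cls (r6 S l2) * (cls (r6 S v1) * cls (r6 S v1)) *
            (cls (r6 S v3) * cls (r6 S v3)) := by rw [s1, s3, mul_one, mul_one]
        _ = _ := by ac_rfl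
    · exfalso
      rw [e1, mul_one] at hC
      refine N3 g (Or.inr ?_)
      rw [← e0, hC]
      calc cls (r6 S l3) = cls (r6 S l3) * (cls (r6 S v1) * cls (r6 S v1)) *
            (cls (r6 S v2) * cls (r6 S v2)) := by rw [s1, s2, mul_one, mul_one]
        _ = _ := by ac_rfl
    · right
      rw [hC, e0]
  obtain ⟨j, -, hj, hpow⟩ := grpQ hAi ht1 htt ht' h8 hA2 honly
  refine ⟨ht1, ⟨b3, hb3⟩, j, ?_, ?_⟩
  · have h4 := Subgroup.card_eq_card_quotient_mul_card_subgroup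
      (Subgroup.zpowers (cls (r6 S 2)))
    have h5 : Nat.card (Subgroup.zpowers (cls (r6 S 2))) = 2 := by
      rw [Nat.card_zpowers]
      exact orderOf_eq_prime (by rw [pow_two]; exact htt) ht1
    rw [hj, h5] at h4
    show Nat.card (ClassGroup (𝓞 K) ⧸ Subgroup.zpowers (cls (r6 S 2))) = 8 * j
    omega
  · intro b
    constructor
    · intro h
      exact (hpow _).1 ((hAM b).2 h)
    · intro h
      refine (hpow _).2 fun h4 => ?_
      have h5 := (hAM b).1 h4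
      omega

end Pool.Agent.Work.MP_8efaaa_nt.Q3
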