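import Mathlib
import Pool.Agent.Work.MP_8efaaa_nt.Q7.PSd

/-!
# Q3/Star (S-M): the exact relation for the difference of the sums, general `a = 14 (mod 16)`

MODEL: `Q7/PSd.lean` (`p_star`; copy the proof, it is the same with `l` for `p`, `r` for `q` and `a` for `2 p q`; `ha` replaces the computation of `a % 16`).
-/

set_option autoImplicit false

namespace Pool.Agent.Work.MP_8efaaa_nt.Q3

open NumberField Pool.Agent.Work.MP_8efaaa_nt.R Pool.Agent.Work.MP_8efaaa_nt.N5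
  Pool.Agent.Work.MP_8efaaa_nt.K6 Pool.Agent.Work.MP_8efaaa_nt.W14
  Pool.Agent.Work.MP_8efaaa_nt.W6 Pool.Agent.Work.MP_8efaaa_nt.Q7
open scoped Classical nonZeroDivisors

theorem star_g {K F : Type*} [Field K] [NumberField K] [Field F] [NumberField F] [Algebra K F]
    [FiniteDimensional K F] [IsGalois K F] [IsGalois ℚ F] {a l r : ℕ} {s : K} {S : 𝓞 K}
    {τ : 𝓞 K ≃+* 𝓞 K} {ζ : F} {w : ℕ → F} {z k v : Ideal (𝓞 K) → F} {κ : F ≃ₐ[ℚ] F}
    (hl : l.Prime) (hr : r.Prime) (hl2 : l ≠ 2) (hlr : l ≠ r) (hr8 : r % 8 = 7)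
    (hla : l ∣ a) (hra : r ∣ a) (ha : a % 16 = 14)
    (hb : B6 K a s) (hS : algebraMap (𝓞 K) K S = s) (hτ : τ S = -S)
    (hU : UD6 K F a s S τ ζ w z k v κ) (hnc : ¬ IsCongruent a)
    {T : (cQ F).Point} (hTT : T + T = ez F)
    (hT : ∀ c, OddI c → PP z k v (Ideal.span {1 + S} * c) + PP z k v c =
        T + if Ideal.absNorm c % 4 = 1 then 0 else W14.em F)
    {H : Subgroup (CG S)} (hi : H.index = 2)
    (hH : ∀ c : M13 K, clM S c ∈ H ↔ Ideal.absNorm (c : Ideal (𝓞 K)) % 8 = 1)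
    {bar : M13 K → M13 K} (hbar : ∀ c, (bar c : Ideal (𝓞 K)) = cj τ (c : Ideal (𝓞 K)))
    (h : AE H (fun c : M13 K => PP z k v (c : Ideal (𝓞 K))) (clM S) (ccM K) (cls (r6 S 2)) bar
        (ez F) (W14.em F) (ep F)) [Fintype (CG S)] {j : ℕ} (hj : Fintype.card (CG S) = 8 * j) :
    ∃ wp : M13 K, Ideal.absNorm (wp : Ideal (𝓞 K)) % 8 = 1 ∧ (∀ g : CG S, g * g ≠ clM S wp) ∧
      clM S wp ^ (2 * j) = ∏ g ∈ Finset.univ.filter (· ∈ H), g ∧
      ∀ r : CG S → M13 K, (∀ g, clM S (r g) = g) →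
        (∑ g ∈ Finset.univ.filter (· ∈ H), PP z k v (r g : Ideal (𝓞 K))) -
        (∑ g ∈ Finset.univ.filter (· ∉ H), PP z k v (r g : Ideal (𝓞 K))) =
        PP z k v ((∏ g ∈ Finset.univ.filter (· ∈ H), r g : M13 K) : Ideal (𝓞 K)) -
        PP z k v ((∏ g ∈ Finset.univ.filter (· ∉ H), r g : M13 K) : Ideal (𝓞 K)) -
        (if ccM K (∏ g ∈ Finset.univ.filter (· ∉ H), r g) = ccM K (wp ^ (2 * j)) then 0
          else ep F) := by
  have hpq : ¬ l ∣ r := by
    intro h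
    exact hlr ((Nat.prime_dvd_prime_iff_eq hl hr).1 h)
  obtain ⟨L, hL, hpL⟩ := exists_prime6 (F := F) hl
  obtain ⟨Γ, iΓ, V, hV⟩ := exists_vl hL
  obtain ⟨b, hb7, hbc, hbj, hbP⟩ := pp_inert hb hS hτ hU hV hl hl2 hla hpL
  have hg7 : Ideal.absNorm (Ideal.span {1 + S}) % 8 = 7 := by
    rw [norm_g hb hS]
    omega
  have hw1 : Ideal.absNorm (Ideal.span {1 + S} * b) % 8 = 1 := by
    rw [map_mul, Nat.mul_mod, hg7, hb7]
  have hS0 : (1 + S : 𝓞 K) ≠ 0 := by
    intro h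
    have h1 := norm_g hb hS
    rw [h, Ideal.span_singleton_zero, Ideal.absNorm_bot] at h1
    omega
  have hb0 : b ≠ 0 := by
    rintro rfl
    rw [map_zero] at hb7
    omega
  have hs0 : (Ideal.span {1 + S} : Ideal (𝓞 K)) ≠ 0 := by
    intro h2
    exact hS0 (Ideal.span_singleton_eq_bot.1 h2)
  have hwH : clM S (⟨Ideal.span {1 + S} * b, Or.inl hw1⟩ : M13 K) ∈ H := (hH _).2 hw1
  have hsq : ∀ g : CG S, g * g ≠ clM S (⟨Ideal.span {1 + S} * b, Or.inl hw1⟩ : M13 K) := by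
    intro g hg
    obtain ⟨c, rfl⟩ := clM_surj hb hS g
    rw [← map_mul] at hg
    have h1 := (clM_eq hb hS).1 hg.symm
    have h2 : cls (((⟨Ideal.span {1 + S} * b, Or.inl hw1⟩ : M13 K)) : Ideal (𝓞 K)) = cls b := by
      show cls (Ideal.span {1 + S} * b) = cls b
      rw [cls_mul hs0 hb0, cls_span hS0, one_mul]
    have h3 : cls (((c * c : M13 K)) : Ideal (𝓞 K)) =
        cls (c : Ideal (𝓞 K)) * cls (c : Ideal (𝓞 K)) := by
      show cls ((c : Ideal (𝓞 K)) * (c : Ideal (𝓞 K))) = _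
      rw [cls_mul (M13.ne c.2) (M13.ne c.2)]
    rw [h2, h3] at h1
    have hqb : ¬ r ∣ Ideal.absNorm b := by
      intro h4
      have h5 : Nat.Coprime r r :=
        Nat.Coprime.coprime_dvd_left h4 (Nat.Coprime.coprime_dvd_right hra hbc)
      exact hr.one_lt.ne' ((Nat.coprime_self r).1 h5)
    have h6 := chi_sq hb hS hτ hr (Or.inr hr8) hra hb0 hqb h1
    have h7 := hbj r hra hpq
    have h8 := jacobiSym.quadratic_reciprocity_three_mod_four (a := r)
      (b := Ideal.absNorm b) (by omega) (by omega)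
    rw [h6, h7] at h8
    norm_num at h8
  have hrel : ∀ c : M13 K, PP z k v (((⟨Ideal.span {1 + S} * b, Or.inl hw1⟩ : M13 K) * bar c :
      M13 K) : Ideal (𝓞 K)) + PP z k v (c : Ideal (𝓞 K)) -
      (T + if clM S c ∈ H then W14.em F else 0) ∈ W5.E1 V := by
    intro c
    have hco : OddI (c : Ideal (𝓞 K)) := M13.odd c.2
    have hcj : Ideal.absNorm (cj τ (c : Ideal (𝓞 K))) = Ideal.absNorm (c : Ideal (𝓞 K)) :=
      (norm_cj6 hb hS hτ _).1
    have hn : Ideal.absNorm (b * cj τ (c : Ideal (𝓞 K))) =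
        Ideal.absNorm b * Ideal.absNorm (c : Ideal (𝓞 K)) := by
      rw [map_mul, hcj]
    have hbo : OddI (b * cj τ (c : Ideal (𝓞 K))) := by
      have h1 : Odd (Ideal.absNorm (c : Ideal (𝓞 K))) := hco
      have h2 : Odd (Ideal.absNorm b) := by
        rw [Nat.odd_iff]
        omega
      show Odd (Ideal.absNorm (b * cj τ (c : Ideal (𝓞 K))))
      rw [hn]
      exact h2.mul h1
    have h1 := hT _ hbo
    have h2 : (if Ideal.absNorm (b * cj τ (c : Ideal (𝓞 K))) % 4 = 1 then 0 else W14.em F) =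
        (if clM S c ∈ H then W14.em F else 0) := by
      rw [hn]
      have h3 : Ideal.absNorm b % 4 = 3 := by omega
      by_cases h4 : clM S c ∈ H
      · have h6 := (hH c).1 h4
        have h5 : (Ideal.absNorm b * Ideal.absNorm (c : Ideal (𝓞 K))) % 4 = 3 := by
          have h7 : Ideal.absNorm (c : Ideal (𝓞 K)) % 4 = 1 := by omega
          rw [Nat.mul_mod, h3, h7]
        rw [if_neg (by omega), if_pos h4]
      · have h6 : Ideal.absNorm (c : Ideal (𝓞 K)) % 8 = 3 := by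
          rcases c.2 with h7 | h7
          · exact absurd ((hH c).2 h7) h4
          · exact h7
        have h5 : (Ideal.absNorm b * Ideal.absNorm (c : Ideal (𝓞 K))) % 4 = 1 := by
          have h7 : Ideal.absNorm (c : Ideal (𝓞 K)) % 4 = 3 := by omega
          rw [Nat.mul_mod, h3, h7]
        rw [if_pos h5, if_neg h4]
    rw [h2] at h1
    have h4 : (((⟨Ideal.span {1 + S} * b, Or.inl hw1⟩ : M13 K) * bar c : M13 K) :
        Ideal (𝓞 K)) = Ideal.span {1 + S} * (b * cj τ (c : Ideal (𝓞 K))) := by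
      show Ideal.span {1 + S} * b * (bar c : Ideal (𝓞 K)) = _
      rw [hbar c, mul_assoc]
    rw [h4, eq_sub_of_add_eq h1]
    have h5 : T + (if clM S c ∈ H then W14.em F else 0) - PP z k v (b * cj τ (c : Ideal (𝓞 K))) +
        PP z k v (c : Ideal (𝓞 K)) - (T + (if clM S c ∈ H then W14.em F else 0)) =
        -(PP z k v (b * cj τ (c : Ideal (𝓞 K))) - PP z k v (c : Ideal (𝓞 K))) := by abel
    rw [h5]
    exact neg_mem (hbP _ hco)
  have hE : ∀ e ∈ W5.E1 V, (64 : ℤ) • e = 0 → e = 0 := by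
    intro e he h64
    refine W5.two_pow_tors he 6 ?_
    have h1 : ((2 : ℤ) ^ 6) = 64 := by norm_num
    rw [h1]
    exact h64
  refine ⟨⟨Ideal.span {1 + S} * b, Or.inl hw1⟩, hw1, hsq, prod_w h hwH hsq hj, ?_⟩
  intro r hrr
  have htor : (64 : ℤ) • ((∑ g ∈ Finset.univ.filter (· ∈ H), PP z k v (r g : Ideal (𝓞 K))) -
      ∑ g ∈ Finset.univ.filter (· ∉ H), PP z k v (r g : Ideal (𝓞 K))) = 0 := by
    have h1 := y_tor hb hS hτ ha hU hnc hi hH r hrr
    have h2 : (16 : ℤ) • ((∑ g ∈ Finset.univ.filter (· ∈ H), PA z k v (r g : Ideal (𝓞 K))) -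
        ∑ g ∈ Finset.univ.filter (· ∉ H), PA z k v (r g : Ideal (𝓞 K))) =
        qm ((16 : ℤ) • ((∑ g ∈ Finset.univ.filter (· ∈ H), PP z k v (r g : Ideal (𝓞 K))) -
        ∑ g ∈ Finset.univ.filter (· ∉ H), PP z k v (r g : Ideal (𝓞 K)))) := by
      rw [map_zsmul, map_sub, map_sum, map_sum]
      rfl
    rw [h2] at h1
    have h3 : (64 : ℤ) • ((∑ g ∈ Finset.univ.filter (· ∈ H), PP z k v (r g : Ideal (𝓞 K))) -
        ∑ g ∈ Finset.univ.filter (· ∉ H), PP z k v (r g : Ideal (𝓞 K))) =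
        (4 : ℤ) • ((16 : ℤ) • ((∑ g ∈ Finset.univ.filter (· ∈ H),
          PP z k v (r g : Ideal (𝓞 K))) -
        ∑ g ∈ Finset.univ.filter (· ∉ H), PP z k v (r g : Ideal (𝓞 K)))) := by
      rw [smul_smul]
      norm_num
    rw [h3]
    rcases qm_eq_zero.1 h1 with h4 | h4
    · rw [h4, smul_zero]
    · rw [h4]
      have h5 : (4 : ℤ) • ep F = (ep F + ep F) + (ep F + ep F) := by abel
      rw [h5, (two_ep (F := F)).1, add_zero]
  exact abs_p h hwH hsq hrel hj hE hrr htor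

end Pool.Agent.Work.MP_8efaaa_nt.Q3
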