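import Mathlib
import Pool.Agent.Work.MP_8efaaa_nt.Q7.KKx
import Pool.Agent.Work.MP_8efaaa_nt.Q3.Star
import Pool.Agent.Work.MP_8efaaa_nt.W14.CHf

/-!
# Q3/Pre (S): the common data (fixed file; only the proof is missing)

`exists_H` (W14/CHf), `exists_ae`, `star_g`. MODEL: `Q7/Pre.lean`.
-/

set_option autoImplicit false

namespace Pool.Agent.Work.MP_8efaaa_nt.Q3

open NumberField Pool.Agent.Work.MP_8efaaa_nt.R Pool.Agent.Work.MP_8efaaa_nt.N5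
  Pool.Agent.Work.MP_8efaaa_nt.K6 Pool.Agent.Work.MP_8efaaa_nt.W14
  Pool.Agent.Work.MP_8efaaa_nt.W6 Pool.Agent.Work.MP_8efaaa_nt.Q7
open scoped Classical nonZeroDivisors

/-- The common data: `H` the classes of norm `1`, `wp` the inertia class, `#CG = 8 j`; the
`2 j`-th power of a class is `1` or `t = cls (r6 S 2)`, as the norm is `1` or `3`. -/
structure Pre3 {K F : Type*} [Field K] [NumberField K] [Field F] [NumberField F] [Algebra K F]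
    (S : 𝓞 K) (τ : 𝓞 K ≃+* 𝓞 K) (z k v : Ideal (𝓞 K) → F) [Fintype (CG S)]
    (H : Subgroup (CG S)) (wp : M13 K) (bar : M13 K → M13 K) (T : (cQ F).Point)
    (j : ℕ) : Prop where
  hi : H.index = 2
  hH : ∀ c : M13 K, clM S c ∈ H ↔ Ideal.absNorm (c : Ideal (𝓞 K)) % 8 = 1
  ht : cls (r6 S 2) ≠ 1
  hTT : T + T = ez F
  hT : ∀ c, OddI c → PP z k v (Ideal.span {1 + S} * c) + PP z k v c =
        T + if Ideal.absNorm c % 4 = 1 then 0 else W14.em F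
  hbar : ∀ c, (bar c : Ideal (𝓞 K)) = cj τ (c : Ideal (𝓞 K))
  ae : AE H (fun c : M13 K => PP z k v (c : Ideal (𝓞 K))) (clM S) (ccM K) (cls (r6 S 2)) bar
        (ez F) (W14.em F) (ep F)
  cj8 : Fintype.card (CG S) = 8 * j
  pow1 : ∀ b : M13 K, Ideal.absNorm (b : Ideal (𝓞 K)) % 8 = 1 →
    cls (b : Ideal (𝓞 K)) ^ (2 * j) = 1
  pow3 : ∀ b : M13 K, Ideal.absNorm (b : Ideal (𝓞 K)) % 8 = 3 →
    cls (b : Ideal (𝓞 K)) ^ (2 * j) = cls (r6 S 2)
  w8 : Ideal.absNorm (wp : Ideal (𝓞 K)) % 8 = 1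
  wpr : clM S wp ^ (2 * j) = ∏ g ∈ Finset.univ.filter (· ∈ H), g
  star : ∀ r : CG S → M13 K, (∀ g, clM S (r g) = g) →
        (∑ g ∈ Finset.univ.filter (· ∈ H), PP z k v (r g : Ideal (𝓞 K))) -
        (∑ g ∈ Finset.univ.filter (· ∉ H), PP z k v (r g : Ideal (𝓞 K))) =
        PP z k v ((∏ g ∈ Finset.univ.filter (· ∈ H), r g : M13 K) : Ideal (𝓞 K)) -
        PP z k v ((∏ g ∈ Finset.univ.filter (· ∉ H), r g : M13 K) : Ideal (𝓞 K)) -
        (if ccM K (∏ g ∈ Finset.univ.filter (· ∉ H), r g) = ccM K (wp ^ (2 * j)) then 0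
          else ep F)

theorem exists_pre3 {K F : Type*} [Field K] [NumberField K] [Field F] [NumberField F]
    [Algebra K F] [FiniteDimensional K F] [IsGalois K F] [IsGalois ℚ F] {a l r : ℕ} {s : K}
    {S : 𝓞 K} {τ : 𝓞 K ≃+* 𝓞 K} {ζ : F} {w : ℕ → F} {z k v : Ideal (𝓞 K) → F}
    {κ : F ≃ₐ[ℚ] F}
    (hl : l.Prime) (hr : r.Prime) (hl2 : l ≠ 2) (hlr : l ≠ r) (hr8 : r % 8 = 7)
    (hla : l ∣ a) (hra : r ∣ a) (ha : a % 16 = 14)
    (hb : B6 K a s) (hS : algebraMap (𝓞 K) K S = s) (hτ : τ S = -S)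
    (hU : UD6 K F a s S τ ζ w z k v κ) (hnc : ¬ IsCongruent a)
    {T R : (cQ F).Point} (hTT : T + T = ez F)
    (hT : ∀ c, OddI c → PP z k v (Ideal.span {1 + S} * c) + PP z k v c =
        T + if Ideal.absNorm c % 4 = 1 then 0 else W14.em F)
    (hRR : R + R = ep F)
    (hR : ∀ c, OddI c → PP z k v (r6 S (a / 2) * c) + PP z k v c =
        R + if Ideal.absNorm c % 8 = 1 ∨ Ideal.absNorm c % 8 = 7 then 0 else ez F)
    (hb3 : ∃ b : Ideal (𝓞 K), Ideal.absNorm b % 8 = 3) (ht : cls (r6 S 2) ≠ 1)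
    [Fintype (CG S)] {j : ℕ} (hj : Fintype.card (CG S) = 8 * j)
    (hpow : ∀ b : M13 K, (Ideal.absNorm (b : Ideal (𝓞 K)) % 8 = 1 →
      cls (b : Ideal (𝓞 K)) ^ (2 * j) = 1) ∧ (Ideal.absNorm (b : Ideal (𝓞 K)) % 8 = 3 →
      cls (b : Ideal (𝓞 K)) ^ (2 * j) = cls (r6 S 2))) :
    ∃ (H : Subgroup (CG S)) (wp : M13 K) (bar : M13 K → M13 K),
      Pre3 S τ z k v H wp bar T j := by
  obtain ⟨d, hd⟩ := hb3
  obtain ⟨H, hi, hH⟩ := exists_H hb hS hτ ha hd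
  obtain ⟨bar, hbar, ae⟩ := exists_ae hb hS hτ ha hU hTT hT hRR hR hi hH ht
  obtain ⟨wp, w8, w2, wpr, star⟩ := star_g hl hr hl2 hlr hr8 hla hra ha hb hS hτ hU hnc hTT hT
    hi hH hbar ae hj
  exact ⟨H, wp, bar,
    { hi := hi
      hH := hH
      ht := ht
      hTT := hTT
      hT := hT
      hbar := hbar
      ae := ae
      cj8 := hj
      pow1 := fun b => (hpow b).1
      pow3 := fun b => (hpow b).2
      w8 := w8
      wpr := wpr
      star := star }⟩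

end Pool.Agent.Work.MP_8efaaa_nt.Q3
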