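import Mathlib
import Pool.Agent.Work.MP_8efaaa_nt.Q7.Sqt

/-!
# Q3/Sqg (S): translation by the square of an ideal, general `a = 14 (mod 16)`

MODEL: `Q7/Sqt.lean` (`sq_tr`, the cases `cls A = 1` and `cls A = cls (r6 S 2)`; copy the proof with `a` for `2 p q`, `a / 2` for `p q`; `(a / 2) % 8 = 7` from `ha`).
-/

set_option autoImplicit false

namespace Pool.Agent.Work.MP_8efaaa_nt.Q3

open NumberField Pool.Agent.Work.MP_8efaaa_nt.R Pool.Agent.Work.MP_8efaaa_nt.N5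
  Pool.Agent.Work.MP_8efaaa_nt.K6 Pool.Agent.Work.MP_8efaaa_nt.W14
  Pool.Agent.Work.MP_8efaaa_nt.W6 Pool.Agent.Work.MP_8efaaa_nt.Q7
open scoped Classical nonZeroDivisors

private theorem sg_odd {K : Type*} [Field K] [NumberField K] {b c : Ideal (𝓞 K)} (hb : OddI b)
    (hc : OddI c) : OddI (b * c) := by
  unfold OddI at hb hc ⊢
  rw [map_mul]
  exact hb.mul hc

private theorem sg_ne {K : Type*} [Field K] [NumberField K] {c : Ideal (𝓞 K)} (hc : OddI c) :
    c ≠ 0 := by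
  rintro rfl
  unfold OddI at hc
  rw [map_zero] at hc
  exact absurd hc (by decide)

private theorem sg_eps {F : Type*} [Field F] [CharZero F] {e : (cQ F).Point} {n : ℕ}
    (h1 : n % 16 = 1 → e = 0 ∨ e = W14.em F) (h2 : n % 16 ≠ 1 → e = ez F ∨ e = ep F) :
    e + e = 0 := by
  obtain ⟨t1, t2, t3, -, -, -⟩ := two_ep (F := F)
  by_cases h : n % 16 = 1
  · rcases h1 h with rfl | rfl
    · exact add_zero _
    · exact t2
  · rcases h2 h with rfl | rfl
    · exact t3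
    · exact t1

section

variable {K F : Type*} [Field K] [NumberField K] [Field F] [NumberField F] [Algebra K F]
  {a : ℕ} {s : K} {S : 𝓞 K} {τ : 𝓞 K ≃+* 𝓞 K} {ζ : F} {w : ℕ → F} {z k v : Ideal (𝓞 K) → F}
  {κ : F ≃ₐ[ℚ] F}

/-- twice the same principal ideal of norm `1 (mod 8)` -/
private theorem sg_dbl (hb : B6 K a s) (hS : algebraMap (𝓞 K) K S = s)
    (hU : UD6 K F a s S τ ζ w z k v κ) {J x : Ideal (𝓞 K)} (hJ : Ideal.absNorm J % 8 = 1)
    (hJ1 : cls J = 1) (hx : OddI x) : PP z k v (J * (J * x)) = PP z k v x := by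
  have hJo : OddI J := by
    unfold OddI
    rw [Nat.odd_iff]
    omega
  obtain ⟨γ, -, rfl⟩ := prin_of_cls (sg_ne hJo) hJ1
  obtain ⟨e, h1, h2, he⟩ := V6.tr_px hb hS hU hJ
  rw [he _ (sg_odd hJo hx), he _ hx, add_assoc, sg_eps h1 h2, add_zero]

/-- twice `1 + S` -/
private theorem sg_g2 (hb : B6 K a s) (hS : algebraMap (𝓞 K) K S = s) {T : (cQ F).Point}
    (hT : ∀ c, OddI c → PP z k v (Ideal.span {1 + S} * c) + PP z k v c =
        T + if Ideal.absNorm c % 4 = 1 then 0 else W14.em F)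
    {y : Ideal (𝓞 K)} (hy : OddI y) :
    PP z k v (Ideal.span {1 + S} * (Ideal.span {1 + S} * y)) = PP z k v y + W14.em F := by
  obtain ⟨t1, t2, t3, -, -, -⟩ := two_ep (F := F)
  have hmod := hb.mod
  have hgo : OddI (Ideal.span {1 + S}) := by
    unfold OddI
    rw [norm_g hb hS, Nat.odd_iff]
    omega
  have h1 := hT _ (sg_odd hgo hy)
  have h2 := hT _ hy
  have hyo : Ideal.absNorm y % 2 = 1 := Nat.odd_iff.1 hy
  have hn : Ideal.absNorm (Ideal.span {1 + S} * y) % 4 = 3 * (Ideal.absNorm y % 4) % 4 := by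
    rw [map_mul, norm_g hb hS, Nat.mul_mod]
    have h3 : (1 + a) % 4 = 3 := by omega
    rw [h3]
  have h4 : PP z k v (Ideal.span {1 + S} * (Ideal.span {1 + S} * y)) =
      T + (if Ideal.absNorm (Ideal.span {1 + S} * y) % 4 = 1 then 0 else W14.em F) -
      (T + (if Ideal.absNorm y % 4 = 1 then 0 else W14.em F) - PP z k v y) := by
    rw [← h1, ← h2]
    abel
  rw [h4]
  have hneg : -(W14.em F) = W14.em F := by
    rw [neg_eq_iff_add_eq_zero]
    exact t2
  by_cases h5 : Ideal.absNorm y % 4 = 1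
  · have h6 : ¬ Ideal.absNorm (Ideal.span {1 + S} * y) % 4 = 1 := by omega
    rw [if_pos h5, if_neg h6]
    abel
  · have h6 : Ideal.absNorm (Ideal.span {1 + S} * y) % 4 = 1 := by omega
    rw [if_neg h5, if_pos h6]
    have h7 : T + 0 - (T + W14.em F - PP z k v y) = PP z k v y + -(W14.em F) := by abel
    rw [h7, hneg]

/-- `d % 8 = 7` -/
private theorem sg_seven (hb : B6 K a s) (hS : algebraMap (𝓞 K) K S = s) (ha : a % 16 = 14)
    (hU : UD6 K F a s S τ ζ w z k v κ) {T : (cQ F).Point}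
    (hT : ∀ c, OddI c → PP z k v (Ideal.span {1 + S} * c) + PP z k v c =
        T + if Ideal.absNorm c % 4 = 1 then 0 else W14.em F)
    {A : Ideal (𝓞 K)} (hA : Ideal.absNorm A % 8 = 1) {x : Ideal (𝓞 K)} (hx : OddI x) {d : ℕ}
    (hd : d ∣ a) (hd8 : d % 8 = 7) (hc : cls A = cls (r6 S d)) :
    PP z k v (A * (A * x)) = PP z k v x + W14.em F := by
  obtain ⟨t1, t2, t3, -, -, -⟩ := two_ep (F := F)
  have hN := norm_r6 hb hS hd
  have hAo : OddI A := by
    unfold OddI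
    rw [Nat.odd_iff]
    omega
  have hdo : OddI (r6 S d) := by
    unfold OddI
    rw [hN, Nat.odd_iff]
    omega
  have hgo : OddI (Ideal.span {1 + S}) := by
    unfold OddI
    rw [norm_g hb hS, Nat.odd_iff]
    omega
  have hg0 : (1 + S : 𝓞 K) ≠ 0 := by
    intro h0
    apply sg_ne hgo
    rw [h0]
    exact Ideal.span_singleton_eq_bot.2 rfl
  have hd0 : (d : 𝓞 K) ≠ 0 := by
    rw [Nat.cast_ne_zero]
    rintro rfl
    omega
  have hJ : Ideal.absNorm (Ideal.span {1 + S} * (A * r6 S d)) % 8 = 1 := by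
    rw [map_mul, map_mul, norm_g hb hS, hN, Nat.mul_mod, Nat.mul_mod (Ideal.absNorm A), hA, hd8]
    have h1 : (1 + a) % 8 = 7 := by omega
    rw [h1]
  have hJ1 : cls (Ideal.span {1 + S} * (A * r6 S d)) = 1 := by
    rw [cls_mul (sg_ne hgo) (sg_ne (sg_odd hAo hdo)), cls_span hg0, one_mul,
      cls_mul (sg_ne hAo) (sg_ne hdo), hc, ← cls_mul (sg_ne hdo) (sg_ne hdo), r6_sq hb hS hd,
      cls_span hd0]
  have h1 := sg_dbl hb hS hU hJ hJ1 hx
  have hyo : OddI (Ideal.span {(d : 𝓞 K)} * (A * (A * x))) := by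
    rw [← r6_sq hb hS hd]
    exact sg_odd (sg_odd hdo hdo) (sg_odd hAo (sg_odd hAo hx))
  have h2 : Ideal.span {1 + S} * (A * r6 S d) * (Ideal.span {1 + S} * (A * r6 S d) * x) =
      Ideal.span {1 + S} * (Ideal.span {1 + S} * (Ideal.span {(d : 𝓞 K)} * (A * (A * x)))) := by
    rw [← r6_sq hb hS hd]
    ring
  rw [h2, sg_g2 hb hS hT hyo, V6.nat_px hb hS hU (Nat.odd_iff.2 (by omega))
    (sg_odd hAo (sg_odd hAo hx)), if_pos (Or.inr hd8), add_zero] at h1
  rw [← h1, add_assoc, t2, add_zero]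

end

theorem sq_trg {K F : Type*} [Field K] [NumberField K] [Field F] [NumberField F]
    [Algebra K F] {a : ℕ} {s : K}
    {S : 𝓞 K} {τ : 𝓞 K ≃+* 𝓞 K} {ζ : F} {w : ℕ → F} {z k v : Ideal (𝓞 K) → F}
    {κ : F ≃ₐ[ℚ] F} (ha : a % 16 = 14)
    (hb : B6 K a s) (hS : algebraMap (𝓞 K) K S = s) (hτ : τ S = -S)
    (hU : UD6 K F a s S τ ζ w z k v κ) {T : (cQ F).Point} (hTT : T + T = ez F)
    (hT : ∀ c, OddI c → PP z k v (Ideal.span {1 + S} * c) + PP z k v c =
        T + if Ideal.absNorm c % 4 = 1 then 0 else W14.em F)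
    {A : Ideal (𝓞 K)} (hA : Ideal.absNorm A % 8 = 1) {x : Ideal (𝓞 K)} (hx : OddI x) :
    (cls A = 1 → PP z k v (A * (A * x)) = PP z k v x) ∧
      (cls A = cls (r6 S 2) → PP z k v (A * (A * x)) = PP z k v x + W14.em F) := by
  have _ := hτ
  have _ := hTT
  refine ⟨fun h => sg_dbl hb hS hU hA h hx, fun h => ?_⟩
  obtain ⟨-, h2⟩ := cls_two hb hS
  have h3 : a / 2 % 8 = 7 := by omega
  exact sg_seven hb hS ha hU hT hA hx (d := a / 2) ⟨2, by omega⟩ h3 (h.trans h2.symm)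

end Pool.Agent.Work.MP_8efaaa_nt.Q3
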