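import Mathlib
import Pool.Agent.Work.MP_8efaaa_nt.Q7.AbS
import Pool.Agent.Work.MP_8efaaa_nt.Q7.Zkp
import Pool.Agent.Work.MP_8efaaa_nt.Q7.Zsg
import Pool.Agent.Work.MP_8efaaa_nt.Q3.Pre
import Pool.Agent.Work.MP_8efaaa_nt.Q3.Sqg

/-!
# Q3/Zcj (M): the conjugates of the half sum

MODELS: `Q7/Zsg.lean` (`z_mul`, `z_conj`), `Q7/Zkp.lean` (`exists_sec`, `z_kap`); copy the proofs. `R0 = ∏_H r g`, `Z = ∑_H PP (r g)`, `#H = 4 j`. For `b' ∈ M13`, `A = b'^(2j)`: `N A = 1 (mod 8)`, `cls A = 1` if `N b' = 1 (mod 8)` (`D.pow1`), `= t = cls (r6 S 2)` if `N b' = 3 (mod 8)` (`D.pow3`); `cls (b'^(4j)) = 1` in both cases. So `∑_{g ∈ H} PP (b' * r g) = Z` resp. `Z + em` (as `z_mul`, with `sq_trg`).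
`z_conj3`: `N b = 5, 7 (mod 8)`: `b' = (1+S) b` has norm `(1 + a) N b = 7 N b (mod 8)`, `3` resp. `1`.
`z_kap3`: `ccM (wp^(2j)) = 1` (`D.w8`, `D.pow1`), so `ccM R0 = 1`, `sq_trg` for `A = R0` (`N R0 = 1 (mod 8)`): `PP (R0 R0 x) = PP x`.
-/

set_option autoImplicit false

namespace Pool.Agent.Work.MP_8efaaa_nt.Q3

open NumberField Pool.Agent.Work.MP_8efaaa_nt.R Pool.Agent.Work.MP_8efaaa_nt.N5
  Pool.Agent.Work.MP_8efaaa_nt.K6 Pool.Agent.Work.MP_8efaaa_nt.W14
  Pool.Agent.Work.MP_8efaaa_nt.W6 Pool.Agent.Work.MP_8efaaa_nt.Q7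
open scoped Classical nonZeroDivisors

section abstract_sums

variable {M A G C : Type*} [CommMonoid M] [AddCommGroup A] [CommGroup G] [CommGroup C]
  [Fintype G] {H : Subgroup G} {P : M → A} {cl : M →* G} {cc : M →* C} {t : C} {bar : M → M}
  {ez em ep : A}

private theorem zs_cl {r : G → M} (hr : ∀ g, cl (r g) = g) (b : M) (g : G) :
    cl (b * r ((cl b)⁻¹ * g)) = g := by
  rw [map_mul, hr, mul_inv_cancel_left]

private theorem zs_re {B : Type*} [CommMonoid B] {a : G} {S1 S2 : Finset G}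
    (h : ∀ g, a * g ∈ S2 ↔ g ∈ S1) (f : G → B) :
    ∏ g ∈ S2, f (a⁻¹ * g) = ∏ g ∈ S1, f g := by
  refine Finset.prod_nbij' (fun g => a⁻¹ * g) (fun g => a * g) ?_ ?_ ?_ ?_ ?_
  · intro g hg
    show a⁻¹ * g ∈ S1
    rw [← h, mul_inv_cancel_left]
    exact hg
  · intro g hg
    exact (h g).2 hg
  · intro g _
    show a * (a⁻¹ * g) = g
    rw [mul_inv_cancel_left]
  · intro g _
    show a⁻¹ * (a * g) = g
    rw [inv_mul_cancel_left]
  · intro g _
    rfl

private theorem zs_ra {B : Type*} [AddCommMonoid B] {a : G} {S1 S2 : Finset G}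
    (h : ∀ g, a * g ∈ S2 ↔ g ∈ S1) (f : G → B) :
    ∑ g ∈ S2, f (a⁻¹ * g) = ∑ g ∈ S1, f g := by
  refine Finset.sum_nbij' (fun g => a⁻¹ * g) (fun g => a * g) ?_ ?_ ?_ ?_ ?_
  · intro g hg
    show a⁻¹ * g ∈ S1
    rw [← h, mul_inv_cancel_left]
    exact hg
  · intro g hg
    exact (h g).2 hg
  · intro g _
    show a * (a⁻¹ * g) = g
    rw [mul_inv_cancel_left]
  · intro g _
    show a⁻¹ * (a * g) = g
    rw [inv_mul_cancel_left]
  · intro g _
    rfl

/-- the sum over the translated section -/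
private theorem zs_mul (h : AE H P cl cc t bar ez em ep) {n : ℕ}
    (hn : (Finset.univ.filter (· ∈ H)).card = n) {W : C}
    (star : ∀ r : G → M, (∀ g, cl (r g) = g) →
        (∑ g ∈ Finset.univ.filter (· ∈ H), P (r g)) -
        (∑ g ∈ Finset.univ.filter (· ∉ H), P (r g)) =
        P (∏ g ∈ Finset.univ.filter (· ∈ H), r g) - P (∏ g ∈ Finset.univ.filter (· ∉ H), r g) -
        (if cc (∏ g ∈ Finset.univ.filter (· ∉ H), r g) = W then 0 else ep))
    {r : G → M} (hr : ∀ g, cl (r g) = g)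
    (hr2 : cc (∏ g ∈ Finset.univ.filter (· ∈ H), r g) = W) {b : M} (hb : cc b ^ n = 1) :
    ∑ g ∈ Finset.univ.filter (· ∈ H), P (b * r g) =
      ∑ g ∈ Finset.univ.filter (· ∈ H), P (r g) +
        (P (b ^ n * ∏ g ∈ Finset.univ.filter (· ∈ H), r g) -
          P (∏ g ∈ Finset.univ.filter (· ∈ H), r g)) := by
  by_cases hbH : cl b ∈ H
  · have hre : ∀ g, cl b * g ∈ Finset.univ.filter (· ∈ H) ↔
        g ∈ Finset.univ.filter (· ∈ H) := by
      intro g
      rw [Finset.mem_filter, Finset.mem_filter]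
      simp only [Finset.mem_univ, true_and]
      exact H.mul_mem_cancel_left hbH
    have h1 := dif_H h (Finset.univ.filter (· ∈ H)) (fun g hg => (Finset.mem_filter.1 hg).2)
      (fun g => b * r ((cl b)⁻¹ * g)) r (zs_cl hr b) hr
    have h2 := zs_ra hre (fun g => P (b * r g))
    have h3 := zs_re hre (fun g => b * r g)
    have h4 : ∏ g ∈ Finset.univ.filter (· ∈ H), b * r g =
        b ^ n * ∏ g ∈ Finset.univ.filter (· ∈ H), r g := by
      rw [Finset.prod_mul_distrib, Finset.prod_const, hn]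
    simp only at h1 h2 h3
    rw [h2, h3, h4] at h1
    rw [← h1]
    abel
  · have hre : ∀ g, cl b * g ∈ Finset.univ.filter (· ∉ H) ↔
        g ∈ Finset.univ.filter (· ∈ H) := by
      intro g
      rw [Finset.mem_filter, Finset.mem_filter]
      simp only [Finset.mem_univ, true_and]
      rw [Subgroup.mul_mem_iff_of_index_two h.idx]
      tauto
    have h2 := zs_ra hre (fun g => P (b * r g))
    have h3 := zs_re hre (fun g => b * r g)
    have h4 : ∏ g ∈ Finset.univ.filter (· ∈ H), b * r g =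
        b ^ n * ∏ g ∈ Finset.univ.filter (· ∈ H), r g := by
      rw [Finset.prod_mul_distrib, Finset.prod_const, hn]
    have h1 := star (fun g => if g ∈ H then r g else b * r ((cl b)⁻¹ * g)) (by
      intro g
      split_ifs
      · exact hr g
      · exact zs_cl hr b g)
    have e1 : ∑ g ∈ Finset.univ.filter (· ∈ H),
        P (if g ∈ H then r g else b * r ((cl b)⁻¹ * g)) =
        ∑ g ∈ Finset.univ.filter (· ∈ H), P (r g) :=
      Finset.sum_congr rfl fun g hg => by rw [if_pos (Finset.mem_filter.1 hg).2]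
    have e2 : ∑ g ∈ Finset.univ.filter (· ∉ H),
        P (if g ∈ H then r g else b * r ((cl b)⁻¹ * g)) =
        ∑ g ∈ Finset.univ.filter (· ∉ H), P (b * r ((cl b)⁻¹ * g)) :=
      Finset.sum_congr rfl fun g hg => by rw [if_neg (Finset.mem_filter.1 hg).2]
    have e3 : ∏ g ∈ Finset.univ.filter (· ∈ H),
        (if g ∈ H then r g else b * r ((cl b)⁻¹ * g)) =
        ∏ g ∈ Finset.univ.filter (· ∈ H), r g :=
      Finset.prod_congr rfl fun g hg => by rw [if_pos (Finset.mem_filter.1 hg).2]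
    have e4 : ∏ g ∈ Finset.univ.filter (· ∉ H),
        (if g ∈ H then r g else b * r ((cl b)⁻¹ * g)) =
        ∏ g ∈ Finset.univ.filter (· ∉ H), b * r ((cl b)⁻¹ * g) :=
      Finset.prod_congr rfl fun g hg => by rw [if_neg (Finset.mem_filter.1 hg).2]
    simp only at h1 h2 h3
    rw [e1, e2, e3, e4, h2, h3, h4, if_pos (by rw [map_mul, map_pow, hb, one_mul, hr2]),
      sub_zero] at h1
    have h5 : ∑ g ∈ Finset.univ.filter (· ∈ H), P (b * r g) =
        ∑ g ∈ Finset.univ.filter (· ∈ H), P (r g) -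
        (∑ g ∈ Finset.univ.filter (· ∈ H), P (r g) -
          ∑ g ∈ Finset.univ.filter (· ∈ H), P (b * r g)) := by abel
    rw [h5, h1]
    abel

end abstract_sums

private theorem zs_card {G : Type*} [Group G] [Fintype G] {H : Subgroup G} (hi : H.index = 2)
    {j : ℕ} (hc : Fintype.card G = 8 * j) : (Finset.univ.filter (· ∈ H)).card = 4 * j := by
  have h1 := H.card_mul_index
  rw [hi, Nat.card_eq_fintype_card (α := G), hc] at h1
  have h2 : (Finset.univ.filter (· ∈ H)).card = Nat.card H := by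
    rw [Nat.card_eq_fintype_card, Fintype.card_subtype]
  omega

private theorem zs_odd {K : Type*} [Field K] [NumberField K] {b c : Ideal (𝓞 K)} (hb : OddI b)
    (hc : OddI c) : OddI (b * c) := by
  unfold OddI at hb hc ⊢
  rw [map_mul]
  exact hb.mul hc

private theorem zs_pow {n : ℕ} (hn : n % 8 = 1 ∨ n % 8 = 3) (j : ℕ) : n ^ (2 * j) % 8 = 1 := by
  have h1 : n ^ 2 % 8 = 1 := by
    rw [Nat.pow_mod]
    rcases hn with h | h <;> rw [h]
  rw [pow_mul, Nat.pow_mod, h1, one_pow]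
  norm_num

private theorem zkp_bar {K : Type*} [Field K] [NumberField K] {S : 𝓞 K} {τ : 𝓞 K ≃+* 𝓞 K}
    {bar : M13 K → M13 K} (hbar : ∀ c, (bar c : Ideal (𝓞 K)) = cj τ (c : Ideal (𝓞 K)))
    (X : Finset (CG S)) (f : CG S → M13 K) : ∏ g ∈ X, bar (f g) = bar (∏ g ∈ X, f g) := by
  induction X using Finset.induction_on with
  | empty =>
    rw [Finset.prod_empty, Finset.prod_empty]
    apply Subtype.ext
    rw [hbar]
    show (1 : Ideal (𝓞 K)) = cj τ (1 : Ideal (𝓞 K))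
    unfold cj
    rw [Ideal.one_eq_top, Ideal.map_top]
  | insert g X hg ih =>
    rw [Finset.prod_insert hg, Finset.prod_insert hg, ih]
    apply Subtype.ext
    rw [hbar]
    show (bar (f g) : Ideal (𝓞 K)) * (bar (∏ g ∈ X, f g) : Ideal (𝓞 K)) =
      cj τ ((f g : Ideal (𝓞 K)) * ((∏ g ∈ X, f g : M13 K) : Ideal (𝓞 K)))
    rw [cj_mul6, hbar, hbar]

private theorem z_mul3 {K F : Type*} [Field K] [NumberField K] [Field F] [NumberField F]
    [Algebra K F] {a : ℕ} {s : K}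
    {S : 𝓞 K} {τ : 𝓞 K ≃+* 𝓞 K} {ζ : F} {w : ℕ → F} {z k v : Ideal (𝓞 K) → F}
    {κ : F ≃ₐ[ℚ] F} (ha : a % 16 = 14)
    (hb : B6 K a s) (hS : algebraMap (𝓞 K) K S = s) (hτ : τ S = -S)
    (hU : UD6 K F a s S τ ζ w z k v κ) [Fintype (CG S)] {H : Subgroup (CG S)}
    {wp : M13 K} {bar : M13 K → M13 K} {T : (cQ F).Point} {j : ℕ}
    (D : Pre3 S τ z k v H wp bar T j) {r : CG S → M13 K}
    (hr : ∀ g, clM S (r g) = g)
    (hr2 : ccM K (∏ g ∈ Finset.univ.filter (· ∈ H), r g) = ccM K (wp ^ (2 * j))) (b : M13 K) :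
    (Ideal.absNorm (b : Ideal (𝓞 K)) % 8 = 1 →
      ∑ g ∈ Finset.univ.filter (· ∈ H), PP z k v ((b : Ideal (𝓞 K)) * (r g : Ideal (𝓞 K))) =
        ∑ g ∈ Finset.univ.filter (· ∈ H), PP z k v (r g : Ideal (𝓞 K))) ∧
    (Ideal.absNorm (b : Ideal (𝓞 K)) % 8 = 3 →
      ∑ g ∈ Finset.univ.filter (· ∈ H), PP z k v ((b : Ideal (𝓞 K)) * (r g : Ideal (𝓞 K))) =
        ∑ g ∈ Finset.univ.filter (· ∈ H), PP z k v (r g : Ideal (𝓞 K)) + W14.em F) := by
  have hn := zs_card D.hi D.cj8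
  have hexp : ccM K b ^ (4 * j) = 1 := by
    have h1 : ccM K b ^ (4 * j) =
        cls (b : Ideal (𝓞 K)) ^ (2 * j) * cls (b : Ideal (𝓞 K)) ^ (2 * j) := by
      rw [← pow_add, show 2 * j + 2 * j = 4 * j by ring]
      rfl
    have hb8 : Ideal.absNorm (b : Ideal (𝓞 K)) % 8 = 1 ∨
      Ideal.absNorm (b : Ideal (𝓞 K)) % 8 = 3 := b.2
    rw [h1]
    rcases hb8 with h2 | h2
    · rw [D.pow1 b h2, one_mul]
    · rw [D.pow3 b h2]
      exact D.ae.t2
  have h1 := zs_mul D.ae hn D.star hr hr2 hexp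
  have hA : Ideal.absNorm ((b : Ideal (𝓞 K)) ^ (2 * j)) % 8 = 1 := by
    rw [map_pow]
    exact zs_pow b.2 j
  have hcA : cls ((b : Ideal (𝓞 K)) ^ (2 * j)) = cls (b : Ideal (𝓞 K)) ^ (2 * j) := by
    have h2 := map_pow (ccM K) b (2 * j)
    exact h2
  have hx : OddI ((∏ g ∈ Finset.univ.filter (· ∈ H), r g : M13 K) : Ideal (𝓞 K)) :=
    M13.odd (∏ g ∈ Finset.univ.filter (· ∈ H), r g : M13 K).2
  have h3 : ((b ^ (4 * j) * ∏ g ∈ Finset.univ.filter (· ∈ H), r g : M13 K) : Ideal (𝓞 K)) =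
      (b : Ideal (𝓞 K)) ^ (2 * j) * ((b : Ideal (𝓞 K)) ^ (2 * j) *
        ((∏ g ∈ Finset.univ.filter (· ∈ H), r g : M13 K) : Ideal (𝓞 K))) := by
    rw [Submonoid.coe_mul, SubmonoidClass.coe_pow, ← mul_assoc, ← pow_add]
    congr 2
    ring
  have hsq := sq_trg ha hb hS hτ hU D.hTT D.hT hA hx
  rw [hcA] at hsq
  simp only at h1
  rw [h3] at h1
  constructor
  · intro h4
    rw [hsq.1 (D.pow1 b h4), sub_self, add_zero] at h1
    exact h1
  · intro h4
    rw [hsq.2 (D.pow3 b h4), add_sub_cancel_left] at h1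
    exact h1

variable {K F : Type*} [Field K] [NumberField K] [Field F] [NumberField F]
    [Algebra K F] {a : ℕ} {s : K}
    {S : 𝓞 K} {τ : 𝓞 K ≃+* 𝓞 K} {ζ : F} {w : ℕ → F} {z k v : Ideal (𝓞 K) → F}
    {κ : F ≃ₐ[ℚ] F}

theorem exists_sec3 (hb : B6 K a s) (hS : algebraMap (𝓞 K) K S = s)
    [Fintype (CG S)] {H : Subgroup (CG S)}
    {wp : M13 K} {bar : M13 K → M13 K} {T : (cQ F).Point} {j : ℕ}
    (D : Pre3 S τ z k v H wp bar T j) :
    ∃ r : CG S → M13 K, (∀ g, clM S (r g) = g) ∧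
      ccM K (∏ g ∈ Finset.univ.filter (· ∈ H), r g) = ccM K (wp ^ (2 * j)) := by
  have hsur : ∀ g : CG S, ∃ c : M13 K, clM S c = g := fun g => clM_surj hb hS g
  choose r0 hr0 using hsur
  have hp : clM S (∏ g ∈ Finset.univ.filter (· ∈ H), r0 g) = clM S (wp ^ (2 * j)) := by
    rw [map_prod, map_pow, D.wpr]
    exact Finset.prod_congr rfl fun g _ => hr0 g
  rcases (D.ae.fib _ _).1 hp with h | h
  · exact ⟨r0, hr0, h⟩
  · obtain ⟨c1, hc1, hc2⟩ := cls_surj hb hS (cls (r6 S 2))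
    refine ⟨fun g => (if g = 1 then (⟨c1, hc1⟩ : M13 K) else 1) * r0 g, ?_, ?_⟩
    · intro g
      rw [map_mul, hr0]
      by_cases hg : g = 1
      · rw [if_pos hg, hg, mul_one]
        show (QuotientGroup.mk (cls c1) : CG S) = 1
        rw [QuotientGroup.eq_one_iff, hc2]
        exact Subgroup.mem_zpowers _
      · rw [if_neg hg, map_one, one_mul]
    · rw [Finset.prod_mul_distrib, Finset.prod_ite_eq', if_pos (by simp [H.one_mem]), map_mul, h]
      show cls c1 * (cls (r6 S 2) * ccM K (wp ^ (2 * j))) = ccM K (wp ^ (2 * j))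
      rw [hc2, ← mul_assoc, D.ae.t2, one_mul]

theorem z_conj3 (ha : a % 16 = 14)
    (hb : B6 K a s) (hS : algebraMap (𝓞 K) K S = s) (hτ : τ S = -S)
    (hU : UD6 K F a s S τ ζ w z k v κ) [Fintype (CG S)] {H : Subgroup (CG S)}
    {wp : M13 K} {bar : M13 K → M13 K} {T : (cQ F).Point} {j : ℕ}
    (D : Pre3 S τ z k v H wp bar T j) {r : CG S → M13 K}
    (hr : ∀ g, clM S (r g) = g)
    (hr2 : ccM K (∏ g ∈ Finset.univ.filter (· ∈ H), r g) = ccM K (wp ^ (2 * j)))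
    {Z : (cQ F).Point}
    (hZ : Z = ∑ g ∈ Finset.univ.filter (· ∈ H), PP z k v (r g : Ideal (𝓞 K)))
    {σ : F ≃ₐ[K] F} {b : Ideal (𝓞 K)}
    (hact : ∀ c, OddI c → gal σ (PP z k v c) = PP z k v (b * c)) :
    (Ideal.absNorm b % 8 = 1 → gal σ Z = Z) ∧
      (Ideal.absNorm b % 8 = 3 → gal σ Z = Z + W14.em F) ∧
      (Ideal.absNorm b % 8 = 5 → gal σ Z = -Z + W14.em F) ∧
      (Ideal.absNorm b % 8 = 7 → gal σ Z = -Z) := by
  obtain ⟨-, q2, q3, -, -, -⟩ := two_ep (F := F)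
  have hgZ : OddI b → gal σ Z = ∑ g ∈ Finset.univ.filter (· ∈ H),
      PP z k v (b * (r g : Ideal (𝓞 K))) := by
    intro _
    rw [hZ, map_sum]
    exact Finset.sum_congr rfl fun g _ => hact _ (M13.odd (r g).2)
  have hg8 : Ideal.absNorm (Ideal.span {1 + S}) % 8 = 7 := by
    rw [norm_g hb hS]
    omega
  have key : ∀ m : ℕ, (Ideal.absNorm b % 8 = 5 ∨ Ideal.absNorm b % 8 = 7) →
      gal σ Z = -∑ g ∈ Finset.univ.filter (· ∈ H),
        PP z k v (Ideal.span {1 + S} * b * (r g : Ideal (𝓞 K))) := by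
    intro _ h57
    have hbo : OddI b := by
      unfold OddI
      rw [Nat.odd_iff]
      omega
    set c : (cQ F).Point := if Ideal.absNorm b % 4 = 1 then 0 else W14.em F with hc
    have hcc : c + c = 0 := by
      rw [hc]
      split_ifs
      · exact add_zero _
      · exact q2
    have h4 : (4 : ℕ) • (T + c) = 0 := by
      have h5 : (4 : ℕ) • (T + c) = (T + T) + (T + T) + ((c + c) + (c + c)) := by abel
      rw [h5, D.hTT, q3, hcc, add_zero, add_zero]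
    have h6 : ∑ g ∈ Finset.univ.filter (· ∈ H),
        PP z k v (Ideal.span {1 + S} * b * (r g : Ideal (𝓞 K))) +
        ∑ g ∈ Finset.univ.filter (· ∈ H), PP z k v (b * (r g : Ideal (𝓞 K))) = 0 := by
      rw [← Finset.sum_add_distrib]
      have h7 : ∀ g ∈ Finset.univ.filter (· ∈ H),
          PP z k v (Ideal.span {1 + S} * b * (r g : Ideal (𝓞 K))) +
            PP z k v (b * (r g : Ideal (𝓞 K))) = T + c := by
        intro g hg
        have h8 : Ideal.absNorm ((r g : M13 K) : Ideal (𝓞 K)) % 8 = 1 := by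
          rw [← D.hH, hr]
          exact (Finset.mem_filter.1 hg).2
        have h9 : Ideal.absNorm (b * (r g : Ideal (𝓞 K))) % 4 = Ideal.absNorm b % 4 := by
          rw [map_mul, Nat.mul_mod]
          have h10 : Ideal.absNorm ((r g : M13 K) : Ideal (𝓞 K)) % 4 = 1 := by omega
          rw [h10, mul_one, Nat.mod_mod]
        have h11 := D.hT (b * (r g : Ideal (𝓞 K))) (zs_odd hbo (M13.odd (r g).2))
        rw [h9, ← hc, ← mul_assoc] at h11
        exact h11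
      rw [Finset.sum_congr rfl h7, Finset.sum_const, zs_card D.hi D.cj8, mul_comm 4 j,
        mul_nsmul', h4, nsmul_zero]
    rw [hgZ hbo]
    exact eq_neg_of_add_eq_zero_right h6
  refine ⟨fun h => ?_, fun h => ?_, fun h => ?_, fun h => ?_⟩
  · have hbo : OddI b := by
      unfold OddI
      rw [Nat.odd_iff]
      omega
    rw [hgZ hbo, hZ]
    exact (z_mul3 ha hb hS hτ hU D hr hr2 ⟨b, Or.inl h⟩).1 h
  · have hbo : OddI b := by
      unfold OddI
      rw [Nat.odd_iff]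
      omega
    rw [hgZ hbo, hZ]
    exact (z_mul3 ha hb hS hτ hU D hr hr2 ⟨b, Or.inr h⟩).2 h
  · have hb' : Ideal.absNorm (Ideal.span {1 + S} * b) % 8 = 3 := by
      rw [map_mul, Nat.mul_mod, hg8, h]
    have h1 := (z_mul3 ha hb hS hτ hU D hr hr2 ⟨Ideal.span {1 + S} * b, Or.inr hb'⟩).2 hb'
    simp only at h1
    rw [key 0 (Or.inl h), h1, ← hZ, neg_add]
    congr 1
    exact neg_eq_of_add_eq_zero_right q2
  · have hb' : Ideal.absNorm (Ideal.span {1 + S} * b) % 8 = 1 := by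
      rw [map_mul, Nat.mul_mod, hg8, h]
    have h1 := (z_mul3 ha hb hS hτ hU D hr hr2 ⟨Ideal.span {1 + S} * b, Or.inl hb'⟩).1 hb'
    simp only at h1
    rw [key 0 (Or.inr h), h1, ← hZ]

theorem z_kap3 (ha : a % 16 = 14)
    (hb : B6 K a s) (hS : algebraMap (𝓞 K) K S = s) (hτ : τ S = -S)
    (hU : UD6 K F a s S τ ζ w z k v κ) [Fintype (CG S)] {H : Subgroup (CG S)}
    {wp : M13 K} {bar : M13 K → M13 K} {T : (cQ F).Point} {j : ℕ}
    (D : Pre3 S τ z k v H wp bar T j) {r : CG S → M13 K}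
    (hr : ∀ g, clM S (r g) = g)
    (hr2 : ccM K (∏ g ∈ Finset.univ.filter (· ∈ H), r g) = ccM K (wp ^ (2 * j)))
    {Z : (cQ F).Point}
    (hZ : Z = ∑ g ∈ Finset.univ.filter (· ∈ H), PP z k v (r g : Ideal (𝓞 K))) :
    gal κ Z = Z := by
  set X : Finset (CG S) := Finset.univ.filter (· ∈ H) with hXd
  have hX : ∀ g ∈ X, g ∈ H := fun g hg => (Finset.mem_filter.1 hg).2
  have hXi : ∀ g ∈ X, g⁻¹ ∈ X := fun g hg =>
    Finset.mem_filter.2 ⟨Finset.mem_univ _, H.inv_mem (hX g hg)⟩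
  set R0 : M13 K := ∏ g ∈ X, r g with hR0
  -- the conjugate of `Z`
  have h1 : gal κ Z = ∑ g ∈ X, PP z k v (bar (r g) : Ideal (𝓞 K)) := by
    rw [hZ, map_sum]
    refine Finset.sum_congr rfl fun g _ => ?_
    obtain ⟨c1, c2, c3⟩ := hU.cc _ (M13.odd (r g).2)
    rw [D.hbar]
    exact gal_pp κ c1 c2 c3
  have h2 : ∑ g ∈ X, PP z k v (bar (r g) : Ideal (𝓞 K)) =
      ∑ g ∈ X, PP z k v (bar (r g⁻¹) : Ideal (𝓞 K)) := by
    refine Finset.sum_nbij' (fun g => g⁻¹) (fun g => g⁻¹) hXi hXi ?_ ?_ ?_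
    · intro g _
      exact inv_inv g
    · intro g _
      exact inv_inv g
    · intro g _
      rw [inv_inv]
  have h3 : ∏ g ∈ X, bar (r g⁻¹) = bar R0 := by
    rw [hR0, ← zkp_bar D.hbar]
    refine Finset.prod_nbij' (fun g => g⁻¹) (fun g => g⁻¹) hXi hXi ?_ ?_ ?_
    · intro g _
      exact inv_inv g
    · intro g _
      exact inv_inv g
    · intro g _
      rfl
  have h4 := dif_H D.ae X hX (fun g => bar (r g⁻¹)) r (fun g => by
    rw [D.ae.clb, hr, inv_inv]) hr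
  rw [h3, ← hR0] at h4
  -- the classes
  have hw1 : ccM K (wp ^ (2 * j)) = 1 := by
    rw [map_pow]
    exact D.pow1 wp D.w8
  have hsq : ccM K R0 * ccM K R0 = 1 := by
    rw [hr2, hw1, one_mul]
  have hcc : ccM K (bar R0) = ccM K R0 := by
    rw [D.ae.ccb]
    exact inv_eq_of_mul_eq_one_left hsq
  have hcl : clM S (bar R0) = clM S R0 := (D.ae.fib _ _).2 (Or.inl hcc)
  obtain ⟨ε, -, -, hε⟩ := D.ae.kk _ _ hcl
  have e1 : PP z k v (bar R0 : Ideal (𝓞 K)) = PP z k v (R0 : Ideal (𝓞 K)) + ε := by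
    have := hε 1
    rw [mul_one, mul_one, if_pos (Or.inl hcc), add_zero] at this
    exact this
  have e2 : PP z k v ((bar R0 * R0 : M13 K) : Ideal (𝓞 K)) =
      PP z k v ((R0 * R0 : M13 K) : Ideal (𝓞 K)) + ε := by
    have := hε R0
    rw [if_pos (Or.inl hcc), add_zero] at this
    exact this
  have hRH : clM S R0 ∈ H := by
    rw [hR0, map_prod]
    refine Subgroup.prod_mem H fun g hg => ?_
    rw [hr]
    exact hX g hg
  have e3 : PP z k v ((R0 * bar R0 : M13 K) : Ideal (𝓞 K)) = PP z k v (1 : Ideal (𝓞 K)) := by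
    have := D.ae.nrm R0 1
    rw [mul_one, if_pos hRH, add_zero] at this
    exact this
  rw [mul_comm] at e3
  rw [e3] at e2
  have hN := (D.hH R0).1 hRH
  have hodd1 : OddI (1 : Ideal (𝓞 K)) := by
    unfold OddI
    rw [map_one]
    exact odd_one
  obtain ⟨s1, s2⟩ := sq_trg ha hb hS hτ hU D.hTT D.hT hN hodd1
  rw [mul_one] at s1 s2
  have e4 : gal κ Z = Z + ε := by
    rw [h1, h2, hZ]
    have h5 : ∑ g ∈ X, PP z k v (bar (r g⁻¹) : Ideal (𝓞 K)) =
        ∑ g ∈ X, PP z k v (r g : Ideal (𝓞 K)) +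
          (PP z k v (bar R0 : Ideal (𝓞 K)) - PP z k v (R0 : Ideal (𝓞 K))) := by
      rw [← h4]
      abel
    rw [h5, e1]
    abel
  have hcR : cls (R0 : Ideal (𝓞 K)) = 1 := by
    have h5 : cls (R0 : Ideal (𝓞 K)) = ccM K (wp ^ (2 * j)) := hr2
    rw [h5, hw1]
  have h6 := s1 hcR
  have h7 : ε = 0 := by
    have h9 : PP z k v ((R0 * R0 : M13 K) : Ideal (𝓞 K)) = PP z k v (1 : Ideal (𝓞 K)) := h6
    rw [h9] at e2
    exact left_eq_add.1 e2
  rw [e4, h7, add_zero]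

end Pool.Agent.Work.MP_8efaaa_nt.Q3
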