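import Mathlib
import Pool.Agent.Work.MP_8efaaa_nt.Q7.C2
import Pool.Agent.Work.MP_8efaaa_nt.Q7.Ds1
import Pool.Agent.Work.MP_8efaaa_nt.Q7.Ds2
import Pool.Agent.Work.MP_8efaaa_nt.Q3.Zcj
import Pool.Agent.Work.MP_8efaaa_nt.V6.PEx

/-!
# Q3/Half (M): the theorem for general `a = 2 m`

MODEL: `Q7/C2.lean`, CASE 1 (copy the proof). `T` from `V6.tq_px`, `R` from `V6.fr_px`, `exists_pre3`, `exists_sec3`: `Z`. `gal κ Z = Z` (`z_kap3`). For `σ : F ≃ₐ[K] F`: `hU.act σ` gives `b`, `z_conj3`. `Z + Z ≠ 0`: `hb3`, `hU.mov b3` gives `σ` acting by `b3`: `gal σ Z = Z + em`; if `Z + Z = 0` then `gal σ Z = Z` (`gal_two_tor`), `em ≠ 0`. `Z = pt x y h`, `η = y/(x+1)`, `δ`. `σ η = η` if `N b = 1, 5 (mod 8)`, `-η` if `N b = 3, 7`; `σ δ = δ` if `N b = 1, 7`, `-δ` if `N b = 3, 5`. `η = ζ^2 s r`, `η^2 = a r^2 = 2 m r^2`, `δ = (ζ + ζ^7) r'`, `δ^2 = 2 r'^2`, `X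 = η^2`: `X (X^2 + 6X + 1) = m (2 r r')^2`: `ds_arith` with `n = m`.
-/

set_option autoImplicit false

namespace Pool.Agent.Work.MP_8efaaa_nt.Q3

open NumberField Pool.Agent.Work.MP_8efaaa_nt.R Pool.Agent.Work.MP_8efaaa_nt.N5
  Pool.Agent.Work.MP_8efaaa_nt.K6 Pool.Agent.Work.MP_8efaaa_nt.W14
  Pool.Agent.Work.MP_8efaaa_nt.W6 Pool.Agent.Work.MP_8efaaa_nt.Q7
open scoped Classical nonZeroDivisors

private theorem fin_arith3 {F : Type*} [Field F] [CharZero F] {x y : F} {η δ : F} (hη : η ≠ 0)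
    (h : y ^ 2 = x ^ 3 - x) (hx : x + 1 ≠ 0) (hη' : η = y / (x + 1))
    (hδ' : δ = ((x + 1) ^ 2 - 2) / (x + 1)) {n m : ℤ} (hn : Odd n) (hm : Odd m) {r t : ℚ}
    (h1 : η ^ 2 = ((2 * n * r ^ 2 : ℚ) : F)) (h2 : η ^ 2 * δ ^ 2 = ((m * t ^ 2 : ℚ) : F)) :
    False := by
  have hrel : δ ^ 2 = η ^ 4 + 6 * η ^ 2 + 1 := by
    rw [hη', hδ']
    exact ds_rel h hx
  obtain ⟨X, hX⟩ : ∃ X : ℚ, X = 2 * n * r ^ 2 := ⟨_, rfl⟩
  rw [← hX] at h1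
  have hX0 : X ≠ 0 := by
    intro h3
    rw [h3, Rat.cast_zero] at h1
    exact hη ((pow_eq_zero_iff two_ne_zero).1 h1)
  refine ds_arith hn hm hX0 hX (t := t) ?_
  have h4 : ((X * (X ^ 2 + 6 * X + 1) : ℚ) : F) = ((m * t ^ 2 : ℚ) : F) := by
    rw [← h2, hrel]
    push_cast
    rw [← h1]
    ring
  exact Rat.cast_injective h4

theorem half_main {K F : Type*} [Field K] [NumberField K] [Field F] [NumberField F]
    [Algebra K F] [FiniteDimensional K F] [IsGalois K F] [IsGalois ℚ F] {a m l r : ℕ} {s : K}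
    {S : 𝓞 K} {τ : 𝓞 K ≃+* 𝓞 K} {ζ : F} {w : ℕ → F} {z k v : Ideal (𝓞 K) → F}
    {κ : F ≃ₐ[ℚ] F}
    (hl : l.Prime) (hr : r.Prime) (hl2 : l ≠ 2) (hlr : l ≠ r) (hr8 : r % 8 = 7)
    (hla : l ∣ a) (hra : r ∣ a) (ham : a = 2 * m) (hm : m % 8 = 7)
    (hb : B6 K a s) (hS : algebraMap (𝓞 K) K S = s) (hτ : τ S = -S)
    (hU : UD6 K F a s S τ ζ w z k v κ)
    (hb3 : ∃ b : Ideal (𝓞 K), Ideal.absNorm b % 8 = 3) (ht : cls (r6 S 2) ≠ 1)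
    {j : ℕ} (hj : Nat.card (CG S) = 8 * j)
    (hpow : ∀ b : M13 K, (Ideal.absNorm (b : Ideal (𝓞 K)) % 8 = 1 →
      cls (b : Ideal (𝓞 K)) ^ (2 * j) = 1) ∧ (Ideal.absNorm (b : Ideal (𝓞 K)) % 8 = 3 →
      cls (b : Ideal (𝓞 K)) ^ (2 * j) = cls (r6 S 2))) : IsCongruent a := by
  by_contra hnc
  have ha : a % 16 = 14 := by
    rw [ham]
    omega
  obtain ⟨T, hTT, hT⟩ := V6.tq_px hb hS hU
  obtain ⟨R, hRR, hR⟩ := V6.fr_px hb hS hU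
  have : Fintype (CG S) := Fintype.ofFinite _
  have hj' : Fintype.card (CG S) = 8 * j := by
    rw [← Nat.card_eq_fintype_card]
    exact hj
  obtain ⟨H, wp, bar, D⟩ := exists_pre3 hl hr hl2 hlr hr8 hla hra ha hb hS hτ hU hnc hTT hT hRR
    hR hb3 ht hj' hpow
  obtain ⟨f, hf, hf2⟩ := exists_sec3 hb hS D
  obtain ⟨Z, hZ⟩ : ∃ Z : (cQ F).Point,
      Z = ∑ g ∈ Finset.univ.filter (· ∈ H), PP z k v (f g : Ideal (𝓞 K)) := ⟨_, rfl⟩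
  have hκZ : gal κ Z = Z := z_kap3 ha hb hS hτ hU D hf hf2 hZ
  have hem : W14.em F ≠ 0 := pt_ne _
  have hact : ∀ (σ : F ≃ₐ[K] F) (b : Ideal (𝓞 K)), MA6 a ζ w z k v σ b →
      ∀ c, OddI c → gal σ (PP z k v c) = PP z k v (b * c) := by
    intro σ b hM c hc
    obtain ⟨a1, a2, a3⟩ := hM.act c hc
    exact gal_pp σ a1 a2 a3
  have hconj := fun (σ : F ≃ₐ[K] F) (b : Ideal (𝓞 K)) (hM : MA6 a ζ w z k v σ b) =>
    z_conj3 ha hb hS hτ hU D hf hf2 hZ (hact σ b hM)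
  obtain ⟨ro1, ro2, -, ro4, ro5, -, ro7⟩ := roots8 hU.z8
  have hκ7 := (roots8 hU.z8).2.2.2.2.2.2 ℚ κ 7 (by norm_num) hU.cz
  have hs2 : (algebraMap K F s) ^ 2 = -((2 * m : ℕ) : F) := by
    rw [← map_pow, hb.sq, map_neg, map_natCast, ham]
  have hκs : κ (algebraMap K F s) = -algebraMap K F s := hU.cs
  have hmo : Odd (m : ℤ) := by
    rw [Int.odd_iff]
    omega
  have hZ2 : Z + Z ≠ 0 := by
    intro h0
    obtain ⟨b3, hb3⟩ := hb3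
    have hb3o : OddI b3 := by
      show Odd _
      rw [Nat.odd_iff]
      omega
    obtain ⟨σ, hσ⟩ := hU.mov b3 hb3o
    have h3 := (hconj σ b3 hσ).2.1 hb3
    rw [(gal_two_tor σ h0).2] at h3
    exact hem (left_eq_add.1 h3)
  obtain ⟨x, y, h, hxy, hy, hx⟩ := ds_two hZ2
  subst hxy
  obtain ⟨η, hη⟩ : ∃ η : F, η = y / (x + 1) := ⟨_, rfl⟩
  obtain ⟨δ, hδ⟩ : ∃ δ : F, δ = ((x + 1) ^ 2 - 2) / (x + 1) := ⟨_, rfl⟩
  have hη0 : η ≠ 0 := by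
    rw [hη]
    exact div_ne_zero hy hx
  have hσ1 : ∀ σ : F ≃ₐ[K] F, σ (η / ζ ^ 2) = η / ζ ^ 2 ∧
      σ (δ / (ζ + ζ ^ 7)) = δ / (ζ + ζ ^ 7) := by
    intro σ
    obtain ⟨b, hbo, hbc, hM⟩ := hU.act σ
    have ho : Ideal.absNorm b % 2 = 1 := Nat.odd_iff.1 hbo
    obtain ⟨r1, r2, -⟩ := ro7 K σ _ ho hM.z8
    obtain ⟨c1, c3, c5, c7⟩ := hconj σ b hM
    obtain ⟨d1, d2, d3, d4⟩ := ds_act σ h hy hx
    rw [← hη, ← hδ] at d1 d2 d3 d4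
    have h8 : Ideal.absNorm b % 8 = 1 ∨ Ideal.absNorm b % 8 = 3 ∨ Ideal.absNorm b % 8 = 5 ∨
        Ideal.absNorm b % 8 = 7 := by omega
    rw [map_div₀, map_div₀, r1, r2]
    rcases h8 with h8 | h8 | h8 | h8
    · obtain ⟨e1, e2⟩ := d1 (c1 h8)
      rw [e1, e2, if_pos (Or.inl h8), if_pos (by omega), one_mul, one_mul]
      exact ⟨rfl, rfl⟩
    · obtain ⟨e1, e2⟩ := d3 (c3 h8)
      rw [e1, e2, if_neg (by omega), if_neg (by omega), neg_one_mul, neg_one_mul, neg_div_neg_eq,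
        neg_div_neg_eq]
      exact ⟨rfl, rfl⟩
    · obtain ⟨e1, e2⟩ := d4 (c5 h8)
      have m8 : ¬ (Ideal.absNorm b % 8 = 1 ∨ Ideal.absNorm b % 8 = 7) := by omega
      have m4 : Ideal.absNorm b % 4 = 1 := by omega
      rw [e1, e2, if_neg m8, if_pos m4, one_mul, neg_one_mul, neg_div_neg_eq]
      exact ⟨rfl, rfl⟩
    · obtain ⟨e1, e2⟩ := d2 (c7 h8)
      rw [e1, e2, if_pos (Or.inr h8), if_neg (by omega), one_mul, neg_one_mul, neg_div_neg_eq]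
      exact ⟨rfl, rfl⟩
  obtain ⟨k1, -, -, -⟩ := ds_act κ h hy hx
  rw [← hη, ← hδ] at k1
  obtain ⟨k2, k3⟩ := k1 hκZ
  obtain ⟨t1, t2, -⟩ := hκ7
  rw [if_pos (Or.inr (by norm_num)), one_mul] at t1
  rw [if_neg (by norm_num), neg_one_mul] at t2
  obtain ⟨ra, hra'⟩ := (desc_q hb hκs fun σ => (hσ1 σ).1).2 (by
    rw [map_div₀, k2, t2, div_neg])
  obtain ⟨rb, hrb⟩ := (desc_q hb hκs fun σ => (hσ1 σ).2).1 (by
    rw [map_div₀, k3, t1])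
  have f1 : η ^ 2 = ((2 * (m : ℤ) * ra ^ 2 : ℚ) : F) := by
    have g1 : η = ζ ^ 2 * ((ra : F) * algebraMap K F s) := by
      rw [← hra']
      exact (mul_div_cancel₀ _ ro5).symm
    rw [g1, mul_pow, ro2, mul_pow, hs2]
    push_cast
    ring
  have f2 : δ ^ 2 = 2 * (rb : F) ^ 2 := by
    have g1 : δ = (ζ + ζ ^ 7) * (rb : F) := by
      rw [← hrb]
      exact (mul_div_cancel₀ _ ro4).symm
    rw [g1, mul_pow, ro1]
  refine fin_arith3 hη0 h hx hη hδ hmo hmo (t := 2 * ra * rb) f1 ?_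
  rw [f1, f2]
  push_cast
  ring

end Pool.Agent.Work.MP_8efaaa_nt.Q3
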