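import Mathlib
import Pool.Agent.Work.MP_8efaaa_nt.K6.CDt
import Pool.Agent.Work.MP_8efaaa_nt.W14.DEx
import Pool.Agent.Work.MP_8efaaa_nt.Q3.Half
import Pool.Agent.Work.MP_8efaaa_nt.Q3.Cl3

/-!
# Q3/Main: three primes `± 1 (mod 8)`
-/

set_option autoImplicit false

namespace Pool.Agent.Work.MP_8efaaa_nt.Q3

open NumberField Pool.Agent.Work.MP_8efaaa_nt.R Pool.Agent.Work.MP_8efaaa_nt.N5
  Pool.Agent.Work.MP_8efaaa_nt.K6 Pool.Agent.Work.MP_8efaaa_nt.W14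
  Pool.Agent.Work.MP_8efaaa_nt.W6 Pool.Agent.Work.MP_8efaaa_nt.Q7
open scoped Classical nonZeroDivisors

private theorem sqf3 {l1 l2 l3 : ℕ} (h1 : l1.Prime) (h2 : l2.Prime) (h3 : l3.Prime)
    (h12 : l1 ≠ l2) (h13 : l1 ≠ l3) (h23 : l2 ≠ l3) (m1 : l1 % 8 = 1 ∨ l1 % 8 = 7)
    (m2 : l2 % 8 = 1 ∨ l2 % 8 = 7) (m3 : l3 % 8 = 1 ∨ l3 % 8 = 7) :
    Squarefree (2 * (l1 * l2 * l3)) := by
  have c1 : Nat.Coprime 2 l1 := (Nat.coprime_primes Nat.prime_two h1).2 (by omega)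
  have c2 : Nat.Coprime 2 l2 := (Nat.coprime_primes Nat.prime_two h2).2 (by omega)
  have c3 : Nat.Coprime 2 l3 := (Nat.coprime_primes Nat.prime_two h3).2 (by omega)
  have c12 : Nat.Coprime l1 l2 := (Nat.coprime_primes h1 h2).2 h12
  have c13 : Nat.Coprime l1 l3 := (Nat.coprime_primes h1 h3).2 h13
  have c23 : Nat.Coprime l2 l3 := (Nat.coprime_primes h2 h3).2 h23
  rw [Nat.squarefree_mul (Nat.Coprime.mul_right (Nat.Coprime.mul_right c1 c2) c3),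
    Nat.squarefree_mul (Nat.Coprime.mul_left c13 c23), Nat.squarefree_mul c12]
  exact ⟨Nat.prime_two.squarefree, ⟨h1.squarefree, h2.squarefree⟩, h3.squarefree⟩

theorem main_q3 {l1 l2 l3 : ℕ} (h1 : l1.Prime) (h2 : l2.Prime) (h3 : l3.Prime) (h12 : l1 ≠ l2)
    (h13 : l1 ≠ l3) (h23 : l2 ≠ l3) (m1 : l1 % 8 = 1 ∨ l1 % 8 = 7)
    (m2 : l2 % 8 = 1 ∨ l2 % 8 = 7) (m3 : l3 % 8 = 1 ∨ l3 % 8 = 7)
    (hm : (l1 * l2 * l3) % 8 = 7)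
    (n1 : ¬ (jacobiSym l1 l2 = 1 ∧ jacobiSym l1 l3 = 1 ∧ jacobiSym (l2 * l3) l1 = 1))
    (n2 : ¬ (jacobiSym l2 l1 = 1 ∧ jacobiSym l2 l3 = 1 ∧ jacobiSym (l1 * l3) l2 = 1))
    (n3 : ¬ (jacobiSym l3 l1 = 1 ∧ jacobiSym l3 l2 = 1 ∧ jacobiSym (l1 * l2) l3 = 1)) :
    IsCongruent (2 * (l1 * l2 * l3)) := by
  have hsf := sqf3 h1 h2 h3 h12 h13 h23 m1 m2 m3
  obtain ⟨K, _, _, s, hb⟩ := exists_base6 hsf (by omega)
  obtain ⟨S, hS, -, -⟩ := exists_S6 hb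
  obtain ⟨τ, hτ⟩ := exists_tau6 hb hS
  obtain ⟨F, _, _, _, _, _, _, ζ, w, z, k, v, κ, hU⟩ := exists_ud6 hb hS hτ
  obtain ⟨ht, hb3, j, hj, hpow⟩ := cls3 h1 h2 h3 h12 h13 h23 m1 m2 m3 hm n1 n2 n3 hb hS hτ
  have d1 : l1 ∣ 2 * (l1 * l2 * l3) := ⟨2 * (l2 * l3), by ring⟩
  have d2 : l2 ∣ 2 * (l1 * l2 * l3) := ⟨2 * (l1 * l3), by ring⟩
  have d3 : l3 ∣ 2 * (l1 * l2 * l3) := ⟨2 * (l1 * l2), by ring⟩
  have h7 : l1 % 8 = 7 ∨ l2 % 8 = 7 ∨ l3 % 8 = 7 := by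
    by_contra hc
    push Not at hc
    have e1 : l1 % 8 = 1 := by tauto
    have e2 : l2 % 8 = 1 := by tauto
    have e3 : l3 % 8 = 1 := by tauto
    rw [Nat.mul_mod, Nat.mul_mod l1, e1, e2, e3] at hm
    norm_num at hm
  rcases h7 with h7 | h7 | h7
  · exact half_main h2 h1 (by omega) (Ne.symm h12) h7 d2 d1 rfl hm hb hS hτ hU hb3 ht hj hpow
  · exact half_main h1 h2 (by omega) h12 h7 d1 d2 rfl hm hb hS hτ hU hb3 ht hj hpow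
  · exact half_main h1 h3 (by omega) h13 h7 d1 d3 rfl hm hb hS hτ hU hb3 ht hj hpow

end Pool.Agent.Work.MP_8efaaa_nt.Q3
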